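import Pool.Agent.T9h23.Pe.O2

/-! # The number of the linear perturbations with an exceptional value at `n` -/

set_option autoImplicit false

namespace T9h23.Pe

open Finset T9h23.Ru T9h23.Op
open scoped Classical

/-- the size of the coefficients -/
noncomputable def gs {d : ℕ} (g : Fin d → ℤ) : ℤ := 1 + ∑ i, |g i|

theorem gs_pos {d : ℕ} (g : Fin d → ℤ) : 1 ≤ gs g := by
  unfold gs
  have : 0 ≤ ∑ i, |g i| := Finset.sum_nonneg fun i _ => abs_nonneg _
  linarith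

theorem mv_sub {d : ℕ} (g : Fin d → ℤ) (n : ℤ) (hn : n ≠ 0) :
    |mv g n - n ^ d| ≤ (gs g - 1) * |n| ^ (d - 1) := by
  unfold mv gs
  rw [add_sub_cancel_left, add_sub_cancel_left, Finset.sum_mul]
  refine (Finset.abs_sum_le_sum_abs _ _).trans (Finset.sum_le_sum fun i _ => ?_)
  rw [abs_mul, abs_pow]
  have h1 : 1 ≤ |n| := Int.one_le_abs hn
  have hi := i.isLt
  exact mul_le_mul_of_nonneg_left (pow_le_pow_right₀ h1 (by omega)) (abs_nonneg _)

theorem mv_upper {d : ℕ} (g : Fin d → ℤ) (n : ℤ) (hn : n ≠ 0) : |mv g n| ≤ gs g * |n| ^ d := by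
  have h1 := mv_sub g n hn
  have h2 : 1 ≤ |n| := Int.one_le_abs hn
  have h3 : |n| ^ (d - 1) ≤ |n| ^ d := pow_le_pow_right₀ h2 (by omega)
  have h4 := gs_pos g
  have h5 : |mv g n| ≤ |mv g n - n ^ d| + |n ^ d| := by
    have := abs_add_le (mv g n - n ^ d) (n ^ d)
    rwa [sub_add_cancel] at this
  rw [abs_pow] at h5
  nlinarith

theorem mv_lower {d : ℕ} (hd : 1 ≤ d) (g : Fin d → ℤ) (n : ℤ) (hn : 2 * gs g ≤ |n|) : |n| ^ d ≤ 2 * |mv g n| := by
  have h4 := gs_pos g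
  have hn0 : n ≠ 0 := by
    rintro rfl
    rw [abs_zero] at hn
    linarith
  have h1 := mv_sub g n hn0
  have h5 : |n ^ d| ≤ |mv g n - n ^ d| + |mv g n| := by
    have := abs_sub (mv g n) (mv g n - n ^ d)
    rw [sub_sub_cancel] at this
    linarith
  rw [abs_pow] at h5
  have h6 : |n| ^ d = |n| ^ (d - 1) * |n| := by
    rw [← pow_succ]; congr 1; omega
  have h7 : 0 ≤ |n| ^ (d - 1) := by positivity
  nlinarith

/-- **The exceptions at `n`.** -/
theorem mid (e : ℕ) (he : 1 ≤ e) (g : Fin (3 * e) → ℤ) (K γ : ℝ) (hK : 1 ≤ K) (hγ : 5 / 9 ≤ γ)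
    (hcount : ∀ Y : ℝ, 1 ≤ Y → ∀ U : Finset ℤ, (∀ y ∈ U, |(y : ℝ)| ≤ Y ∧ Bad y) → (U.card : ℝ) ≤ K * Y ^ γ)
    (C₁ : ℝ) (hC₁ : 1 ≤ C₁) :
    ∃ C : ℝ, 0 < C ∧ ∀ H : ℕ, 1 ≤ H → ∀ n : ℤ, n ≠ 0 → |(n : ℝ)| ≤ C₁ * (H : ℝ) ^ (6 / 5 : ℝ) →
      ((exc H (mv g n) n).card : ℝ) ≤ C * ((H : ℝ) ^ (1 + γ * (3 * e / (3 * e - 1))) / |(n : ℝ)| + 1) := by
  have he1 : (1 : ℝ) ≤ e := by exact_mod_cast he
  set G : ℝ := (gs g : ℝ) with hG
  have hG1 : 1 ≤ G := by rw [hG]; exact_mod_cast gs_pos g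
  set L : ℝ := 2000 + (2 * G) ^ (3 * e - 1) with hL
  have hL1 : 2000 ≤ L := by
    rw [hL]
    have : 0 ≤ (2 * G) ^ (3 * e - 1) := by positivity
    linarith
  set C₂ : ℝ := G * L + 2 with hC₂
  have hC₂1 : 1 ≤ C₂ := by rw [hC₂]; nlinarith
  have h3e : (0 : ℝ) < 3 * e - 1 := by linarith
  set κ : ℝ := 1 + γ * (3 * e / (3 * e - 1)) with hκ
  have hκ1 : 1 + γ + γ / (3 * e - 1) = κ := by
    rw [hκ]; field_simp; ring
  set CA : ℝ := 4 * L * K * C₂ ^ γ * L ^ (γ / (3 * e - 1)) with hCA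
  have hCA0 : 0 < CA := by positivity
  set CB : ℝ := 20 * (12 + 4 * C₁ ^ (2 / 3 : ℝ) + 3) with hCB
  have hCB0 : 0 < CB := by positivity
  refine ⟨CA + CB, by positivity, ?_⟩
  intro H hH n hn hnH
  have hHr : (1 : ℝ) ≤ H := by exact_mod_cast hH
  have hH0 : (0 : ℝ) < H := by linarith
  have hn1 : (1 : ℝ) ≤ |(n : ℝ)| := by
    have : 1 ≤ |n| := Int.one_le_abs hn
    exact_mod_cast this
  obtain ⟨m, hm⟩ : ∃ m : ℝ, m = |(n : ℝ)| := ⟨_, rfl⟩
  rw [← hm] at hn1 hnH ⊢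
  have hm0 : 0 < m := by linarith
  have hκ0 : 0 < (H : ℝ) ^ κ := by positivity
  rcases le_total (m ^ (3 * e - 1)) (L * H) with hc | hc
  · -- small arguments
    have hw : |(mv g n : ℝ)| ≤ G * m ^ (3 * e) := by
      rw [hm, hG]; exact_mod_cast mv_upper g n hn
    have hm2 : m ^ (3 * e) = m ^ (3 * e - 1) * m := by
      rw [← pow_succ]; congr 1; omega
    have hY : |(mv g n : ℝ)| + 2 * H * |(n : ℝ)| ≤ C₂ * H * m := by
      rw [← hm]
      have h1 : G * m ^ (3 * e) ≤ G * (L * H) * m := by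
        rw [hm2, ← mul_assoc]; gcongr
      rw [hC₂]
      nlinarith
    have hY1 : 1 ≤ C₂ * H * m := by
      have : 1 ≤ C₂ * H := by nlinarith
      nlinarith
    have h1 := exc_small K γ hcount H n (mv g n) hn _ hY1 hY
    rw [← hm] at h1
    have hmL : m ≤ L * H := le_trans (le_self_pow₀ hn1 (by omega)) hc
    have h2 : (2 * (H : ℝ) + 1) / m + 1 ≤ 4 * L * H / m := by
      rw [div_add_one hm0.ne']
      gcongr
      nlinarith
    have h3 : m ^ γ ≤ L ^ (γ / (3 * e - 1)) * (H : ℝ) ^ (γ / (3 * e - 1)) := by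
      rw [← Real.mul_rpow (by linarith) hH0.le]
      have h4 : m ^ γ = (m ^ (3 * e - 1)) ^ (γ / (3 * (e : ℝ) - 1)) := by
        rw [← Real.rpow_natCast m, ← Real.rpow_mul hm0.le]
        congr 1
        rw [Nat.cast_sub (by omega)]
        push_cast
        field_simp
      rw [h4]
      exact Real.rpow_le_rpow (by positivity) hc (by positivity)
    have h4 : K * (C₂ * H * m) ^ γ * ((2 * H + 1) / m + 1) ≤ CA * ((H : ℝ) ^ κ / m) := by
      rw [Real.mul_rpow (by positivity) hm0.le, Real.mul_rpow (by linarith) hH0.le]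
      calc K * (C₂ ^ γ * (H : ℝ) ^ γ * m ^ γ) * ((2 * H + 1) / m + 1)
          ≤ K * (C₂ ^ γ * (H : ℝ) ^ γ * (L ^ (γ / (3 * e - 1)) * (H : ℝ) ^ (γ / (3 * e - 1)))) *
            (4 * L * H / m) := by gcongr
        _ = CA * ((H * (H : ℝ) ^ γ * (H : ℝ) ^ (γ / (3 * (e : ℝ) - 1))) / m) := by rw [hCA]; ring
        _ = _ := by
            congr 2
            rw [← hκ1, Real.rpow_add hH0, Real.rpow_add hH0, Real.rpow_one]
    have h5 : 0 ≤ (H : ℝ) ^ κ / m := by positivity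
    nlinarith
  · -- larger arguments
    have hGL : (2 * G) ^ (3 * e - 1) ≤ m ^ (3 * e - 1) := by
      refine le_trans ?_ hc
      have : (2 * G) ^ (3 * e - 1) ≤ L := by rw [hL]; linarith
      nlinarith
    have hmG : 2 * G ≤ m := by
      by_contra hcon
      push Not at hcon
      have := pow_lt_pow_left₀ hcon hm0.le (by omega : 3 * e - 1 ≠ 0)
      linarith
    have hm2 : m ^ (3 * e) = m ^ (3 * e - 1) * m := by
      rw [← pow_succ]; congr 1; omega
    have hlow : m ^ (3 * e) ≤ 2 * |(mv g n : ℝ)| := by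
      have h1 : 2 * gs g ≤ |n| := by
        have : 2 * (gs g : ℝ) ≤ |(n : ℝ)| := by rw [← hm]; exact hmG
        exact_mod_cast this
      rw [hm]
      exact_mod_cast mv_lower (by omega) g n h1
    have hbig : 2000 * H * m ≤ m ^ (3 * e) := by
      rw [hm2]
      have : 2000 * (H : ℝ) ≤ m ^ (3 * e - 1) := le_trans (by gcongr) hc
      nlinarith
    have hw1 : 1000 ≤ |mv g n| := by
      have : (1000 : ℝ) ≤ |(mv g n : ℝ)| := by nlinarith
      exact_mod_cast this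
    have hw2 : 66 * ((2 * H * n.natAbs : ℕ) : ℤ) ≤ |mv g n| := by
      have h1 : 66 * (2 * H * m) ≤ |(mv g n : ℝ)| := by nlinarith
      have h2 : ((66 * ((2 * H * n.natAbs : ℕ) : ℤ) : ℤ) : ℝ) ≤ ((|mv g n| : ℤ) : ℝ) := by
        push_cast
        rw [← hm]
        linarith
      exact_mod_cast h2
    have h1 := exc_large H hH n (mv g n) hn hw1 hw2
    rw [← hm] at h1
    -- the exponents
    set t : ℝ := m ^ (1 - 4 * (e : ℝ) / 3) with ht
    have ht0 : 0 < t := by positivity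
    have h2 : |(mv g n : ℝ)| ^ (-(4 / 9) : ℝ) ≤ 2 * m ^ (-(4 * (e : ℝ) / 3)) := by
      have h3 : m ^ (3 * e) / 2 ≤ |(mv g n : ℝ)| := by linarith
      have h4 : |(mv g n : ℝ)| ^ (-(4 / 9) : ℝ) ≤ (m ^ (3 * e) / 2) ^ (-(4 / 9) : ℝ) :=
        Real.rpow_le_rpow_of_nonpos (by positivity) h3 (by norm_num)
      refine h4.trans ?_
      rw [Real.div_rpow (by positivity) (by norm_num), ← Real.rpow_natCast m, ← Real.rpow_mul hm0.le]
      have h5 : ((3 * e : ℕ) : ℝ) * -(4 / 9) = -(4 * (e : ℝ) / 3) := by push_cast; ring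
      rw [h5, Real.rpow_neg (by norm_num : (0 : ℝ) ≤ 2), div_inv_eq_mul, mul_comm]
      have h6 : (2 : ℝ) ^ (4 / 9 : ℝ) ≤ 2 := by
        calc (2 : ℝ) ^ (4 / 9 : ℝ) ≤ (2 : ℝ) ^ (1 : ℝ) :=
              Real.rpow_le_rpow_of_exponent_le (by norm_num) (by norm_num)
          _ = 2 := Real.rpow_one _
      gcongr
    have h3 : m * m ^ (-(4 * (e : ℝ) / 3)) = t := by
      rw [ht, sub_eq_add_neg, Real.rpow_add hm0, Real.rpow_one]
    have h4 : 2 * H * m * |(mv g n : ℝ)| ^ (-(4 / 9) : ℝ) ≤ 4 * H * t := by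
      calc 2 * H * m * |(mv g n : ℝ)| ^ (-(4 / 9) : ℝ) ≤ 2 * H * m * (2 * m ^ (-(4 * (e : ℝ) / 3))) := by gcongr
        _ = 4 * H * (m * m ^ (-(4 * (e : ℝ) / 3))) := by ring
        _ = _ := by rw [h3]
    have h5 : (2 * (H : ℝ) + 1) / m + 1 ≤ 3 * H / m + 1 := by
      gcongr
      linarith
    have h6 : ((exc H (mv g n) n).card : ℝ) ≤ 20 * (4 * H * t + 1) * (3 * H / m + 1) := by
      refine h1.trans ?_
      gcongr
    have h7 : 20 * (4 * H * t + 1) * (3 * H / m + 1) =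
        20 * (12 * ((H : ℝ) ^ 2 * t / m) + 4 * (H * t) + 3 * (H / m) + 1) := by
      field_simp; ring
    rw [h7] at h6
    have hLH : (H : ℝ) ≤ m ^ (3 * e - 1) := le_trans (by nlinarith) hc
    -- the first term
    have hκ2 : 1 + 5 / 9 * (3 * e / (3 * e - 1)) ≤ κ := by
      rw [hκ]
      gcongr
    have t1 : (H : ℝ) ^ 2 * t / m ≤ (H : ℝ) ^ κ / m := by
      have h8 : t ≤ (H : ℝ) ^ ((1 - 4 * (e : ℝ) / 3) / (3 * e - 1)) := by
        have h9 : t = (m ^ (3 * e - 1)) ^ ((1 - 4 * (e : ℝ) / 3) / (3 * e - 1)) := by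
          rw [ht, ← Real.rpow_natCast m, ← Real.rpow_mul hm0.le]
          congr 1
          rw [Nat.cast_sub (by omega)]
          push_cast
          rw [mul_div_assoc', mul_div_cancel_left₀ _ h3e.ne']
        rw [h9]
        refine Real.rpow_le_rpow_of_nonpos hH0 hLH ?_
        apply div_nonpos_of_nonpos_of_nonneg _ h3e.le
        linarith
      have h9 : (H : ℝ) ^ 2 * t ≤ (H : ℝ) ^ κ := by
        calc (H : ℝ) ^ 2 * t ≤ (H : ℝ) ^ 2 * (H : ℝ) ^ ((1 - 4 * (e : ℝ) / 3) / (3 * e - 1)) := by gcongr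
          _ = (H : ℝ) ^ (2 + (1 - 4 * (e : ℝ) / 3) / (3 * e - 1)) := by
              rw [Real.rpow_add hH0]; norm_num
          _ ≤ (H : ℝ) ^ κ := by
              apply Real.rpow_le_rpow_of_exponent_le hHr
              refine le_trans (le_of_eq ?_) hκ2
              obtain ⟨D, hD⟩ : ∃ D : ℝ, D = 3 * (e : ℝ) - 1 := ⟨_, rfl⟩
              have hD0 : D ≠ 0 := by rw [hD]; exact h3e.ne'
              have he3 : (e : ℝ) = (D + 1) / 3 := by rw [hD]; ring
              rw [← hD, he3]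
              field_simp
              ring
      gcongr
    -- the second term
    have t2 : H * t ≤ C₁ ^ (2 / 3 : ℝ) * ((H : ℝ) ^ κ / m) := by
      have hC3 : 1 ≤ C₁ ^ (2 / 3 : ℝ) := Real.one_le_rpow hC₁ (by norm_num)
      have h8 : t = m ^ (2 - 4 * (e : ℝ) / 3) / m := by
        rw [ht, eq_div_iff hm0.ne']
        nth_rewrite 2 [← Real.rpow_one m]
        rw [← Real.rpow_add hm0]
        congr 1
        ring
      rw [h8, mul_div_assoc', mul_div_assoc']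
      refine div_le_div_of_nonneg_right ?_ hm0.le
      rcases Nat.lt_or_ge 1 e with h9 | h9
      · have h10 : (2 : ℝ) ≤ e := by exact_mod_cast h9
        have h11 : m ^ (2 - 4 * (e : ℝ) / 3) ≤ 1 := Real.rpow_le_one_of_one_le_of_nonpos hn1 (by linarith)
        have h12 : (H : ℝ) ≤ (H : ℝ) ^ κ := by
          nth_rewrite 1 [← Real.rpow_one (H : ℝ)]
          apply Real.rpow_le_rpow_of_exponent_le hHr
          refine le_trans ?_ hκ2
          have : 0 ≤ 5 / 9 * (3 * (e : ℝ) / (3 * e - 1)) := by positivity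
          linarith
        calc H * m ^ (2 - 4 * (e : ℝ) / 3) ≤ H * 1 := by gcongr
          _ = H := mul_one _
          _ ≤ (H : ℝ) ^ κ := h12
          _ ≤ C₁ ^ (2 / 3 : ℝ) * (H : ℝ) ^ κ := le_mul_of_one_le_left hκ0.le hC3
      · have h10 : e = 1 := by omega
        subst h10
        have h11 : m ^ (2 - 4 * ((1 : ℕ) : ℝ) / 3) ≤ C₁ ^ (2 / 3 : ℝ) * (H : ℝ) ^ (4 / 5 : ℝ) := by
          have h12 : (2 - 4 * ((1 : ℕ) : ℝ) / 3) = 2 / 3 := by push_cast; norm_num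
          rw [h12]
          calc m ^ (2 / 3 : ℝ) ≤ (C₁ * (H : ℝ) ^ (6 / 5 : ℝ)) ^ (2 / 3 : ℝ) :=
                Real.rpow_le_rpow hm0.le hnH (by norm_num)
            _ = _ := by
                rw [Real.mul_rpow (by linarith) (by positivity), ← Real.rpow_mul hH0.le]
                norm_num
        have h13 : H * (H : ℝ) ^ (4 / 5 : ℝ) ≤ (H : ℝ) ^ κ := by
          nth_rewrite 1 [← Real.rpow_one (H : ℝ)]
          rw [← Real.rpow_add hH0]
          apply Real.rpow_le_rpow_of_exponent_le hHr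
          refine le_trans ?_ hκ2
          push_cast
          norm_num
        calc H * m ^ (2 - 4 * ((1 : ℕ) : ℝ) / 3) ≤ H * (C₁ ^ (2 / 3 : ℝ) * (H : ℝ) ^ (4 / 5 : ℝ)) := by gcongr
          _ = C₁ ^ (2 / 3 : ℝ) * (H * (H : ℝ) ^ (4 / 5 : ℝ)) := by ring
          _ ≤ _ := by gcongr
    -- the third term
    have t3 : (H : ℝ) / m ≤ (H : ℝ) ^ κ / m := by
      gcongr
      nth_rewrite 1 [← Real.rpow_one (H : ℝ)]
      apply Real.rpow_le_rpow_of_exponent_le hHr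
      refine le_trans ?_ hκ2
      have : 0 ≤ 5 / 9 * (3 * (e : ℝ) / (3 * e - 1)) := by positivity
      linarith
    have h8 : 0 ≤ (H : ℝ) ^ κ / m := by positivity
    have h9 : 20 * (12 * ((H : ℝ) ^ 2 * t / m) + 4 * (H * t) + 3 * (H / m) + 1) ≤
        CB * ((H : ℝ) ^ κ / m) + CB := by
      have h10 : (20 : ℝ) ≤ CB := by
        rw [hCB]
        have : 0 ≤ C₁ ^ (2 / 3 : ℝ) := by positivity
        linarith
      have h11 : CB * ((H : ℝ) ^ κ / m) = 20 * (12 * ((H : ℝ) ^ κ / m) + 4 * (C₁ ^ (2 / 3 : ℝ) * ((H : ℝ) ^ κ / m)) +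
          3 * ((H : ℝ) ^ κ / m)) := by rw [hCB]; ring
      rw [h11]
      linarith
    nlinarith

end T9h23.Pe
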