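import Pool.Agent.T9h23.Pe.O3

/-! # The number of the linear perturbations with an exceptional value at a moderate argument -/

set_option autoImplicit false

namespace T9h23.Pe

open Finset T9h23.Ru T9h23.Op
open scoped Classical

/-- the pairs with an exceptional value at an argument up to `N` -/
noncomputable def excs {d : ℕ} (g : Fin d → ℤ) (H : ℕ) (N : ℝ) : Finset (ℤ × ℤ) :=
  (sq H).filter (fun c => ∃ n : ℤ, |(n : ℝ)| ≤ N ∧ Bad (mv g n + (c.1 * n + c.2)))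

theorem sum_inv (M : ℕ) : ∑ m ∈ Icc 1 M, (1 : ℝ) / m ≤ 1 + Real.log M := by
  have h := harmonic_le_one_add_log M
  rw [harmonic_eq_sum_Icc] at h
  push_cast at h
  refine le_trans (le_of_eq ?_) h
  refine Finset.sum_congr rfl fun i _ => ?_
  rw [one_div]

/-- the exponent -/
noncomputable def th (e : ℕ) : ℝ := 1 + 5 / 9 * (3 * e / (3 * e - 1))

/-- **All moderate arguments.** -/
theorem total (e : ℕ) (he : 1 ≤ e) (g : Fin (3 * e) → ℤ) (C₁ : ℝ) (hC₁ : 1 ≤ C₁) (ε : ℝ) (hε : 0 < ε) :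
    ∃ C : ℝ, 0 < C ∧ ∀ H : ℕ, 1 ≤ H →
      ((excs g H (C₁ * (H : ℝ) ^ (6 / 5 : ℝ))).card : ℝ) ≤ C * (H : ℝ) ^ (th e + ε) := by
  have he1 : (1 : ℝ) ≤ e := by exact_mod_cast he
  have h3e : (0 : ℝ) < 3 * e - 1 := by linarith
  set γ : ℝ := 5 / 9 + ε / 3 with hγ
  obtain ⟨K, hK, hcount⟩ := countE γ (by rw [hγ]; linarith)
  obtain ⟨C, hC, hmid⟩ := mid e he g K γ hK (by rw [hγ]; linarith) hcount C₁ hC₁
  have hr1 : 1 ≤ 3 * (e : ℝ) / (3 * e - 1) := by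
    rw [le_div_iff₀ h3e]; linarith
  have hr2 : 3 * (e : ℝ) / (3 * e - 1) ≤ 3 / 2 := by
    rw [div_le_iff₀ h3e]; linarith
  set κ : ℝ := 1 + γ * (3 * e / (3 * e - 1)) with hκ
  have hκθ : κ ≤ th e + ε / 2 := by
    rw [hκ, hγ, th, add_mul]
    have : ε / 3 * (3 * (e : ℝ) / (3 * e - 1)) ≤ ε / 3 * (3 / 2) := by gcongr
    linarith
  have hκγ : 1 + γ ≤ κ := by
    rw [hκ]
    have : γ * 1 ≤ γ * (3 * (e : ℝ) / (3 * e - 1)) := by
      apply mul_le_mul_of_nonneg_left hr1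
      rw [hγ]; linarith
    linarith
  have hθ : 14 / 9 ≤ th e := by
    rw [th]; linarith
  set G : ℝ := |(mv g 0 : ℝ)| + 1 with hG
  have hG1 : 1 ≤ G := by rw [hG]; linarith [abs_nonneg (mv g 0 : ℝ)]
  set D0 : ℝ := 3 * (K * G ^ γ) with hD0
  have hD00 : 0 ≤ D0 := by positivity
  have hlC : 0 ≤ Real.log C₁ := Real.log_nonneg hC₁
  set D1 : ℝ := 1 + Real.log C₁ + 6 / 5 * (2 / ε) with hD1
  have hD10 : 0 < D1 := by positivity
  refine ⟨D0 + 2 * C * D1 + 2 * C * C₁, by positivity, ?_⟩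
  intro H hH
  have hHr : (1 : ℝ) ≤ H := by exact_mod_cast hH
  have hH0 : (0 : ℝ) < H := by linarith
  set N : ℝ := C₁ * (H : ℝ) ^ (6 / 5 : ℝ) with hN
  have hN1 : 1 ≤ N := by
    have : 1 ≤ (H : ℝ) ^ (6 / 5 : ℝ) := Real.one_le_rpow hHr (by norm_num)
    rw [hN]; nlinarith
  set M : ℕ := ⌊N⌋₊ with hM
  have hMN : (M : ℝ) ≤ N := Nat.floor_le (by linarith)
  have hM1 : 1 ≤ M := by
    rw [hM]; exact Nat.le_floor (by exact_mod_cast hN1)
  have hsub : excs g H N ⊆ exc H (mv g 0) 0 ∪ (Icc 1 M).biUnion (fun m : ℕ =>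
      exc H (mv g (m : ℤ)) (m : ℤ) ∪ exc H (mv g (-(m : ℤ))) (-(m : ℤ))) := by
    intro c hc
    rw [excs, mem_filter] at hc
    obtain ⟨hc1, n, hn, hb⟩ := hc
    rw [mem_union]
    by_cases hn0 : n = 0
    · left
      subst hn0
      rw [exc, mem_filter]
      exact ⟨hc1, hb⟩
    · right
      rw [mem_biUnion]
      refine ⟨n.natAbs, ?_, ?_⟩
      · rw [mem_Icc]
        refine ⟨Int.natAbs_pos.2 hn0, ?_⟩
        rw [hM]
        apply Nat.le_floor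
        rw [Nat.cast_natAbs, Int.cast_abs]
        exact hn
      · rw [mem_union]
        rcases Int.natAbs_eq n with h | h
        · left
          rw [← h, exc, mem_filter]
          exact ⟨hc1, hb⟩
        · right
          have h2 : -(n.natAbs : ℤ) = n := h.symm
          rw [h2, exc, mem_filter]
          exact ⟨hc1, hb⟩
  have hcard : ((excs g H N).card : ℝ) ≤ ((exc H (mv g 0) 0).card : ℝ) + ∑ m ∈ Icc 1 M,
      (((exc H (mv g (m : ℤ)) (m : ℤ)).card : ℝ) + ((exc H (mv g (-(m : ℤ))) (-(m : ℤ))).card : ℝ)) := by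
    have h1 := (Finset.card_le_card hsub).trans (Finset.card_union_le _ _)
    have h2 : ((Icc 1 M).biUnion (fun m : ℕ =>
        exc H (mv g (m : ℤ)) (m : ℤ) ∪ exc H (mv g (-(m : ℤ))) (-(m : ℤ)))).card ≤
        ∑ m ∈ Icc 1 M, ((exc H (mv g (m : ℤ)) (m : ℤ)).card + (exc H (mv g (-(m : ℤ))) (-(m : ℤ))).card) := by
      refine Finset.card_biUnion_le.trans (Finset.sum_le_sum fun m _ => Finset.card_union_le _ _)
    exact_mod_cast h1.trans (Nat.add_le_add_left h2 _)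
  have hz : ((exc H (mv g 0) 0).card : ℝ) ≤ D0 * (H : ℝ) ^ κ := by
    have h1 : |(mv g 0 : ℝ)| + H ≤ G * H := by
      rw [hG]
      have := abs_nonneg (mv g 0 : ℝ)
      nlinarith
    have h2 := exc_zero K γ hcount H (mv g 0) (G * H) (by nlinarith) h1
    refine h2.trans ?_
    rw [Real.mul_rpow (by linarith) hH0.le]
    calc (2 * (H : ℝ) + 1) * (K * (G ^ γ * (H : ℝ) ^ γ)) ≤ (3 * H) * (K * (G ^ γ * (H : ℝ) ^ γ)) := by
          gcongr
          linarith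
      _ = D0 * (H * (H : ℝ) ^ γ) := by rw [hD0]; ring
      _ = D0 * (H : ℝ) ^ (1 + γ) := by rw [Real.rpow_add hH0 1 γ, Real.rpow_one]
      _ ≤ _ := by
          gcongr
  have hper : ∀ m ∈ Icc 1 M, (((exc H (mv g (m : ℤ)) (m : ℤ)).card : ℝ) +
      ((exc H (mv g (-(m : ℤ))) (-(m : ℤ))).card : ℝ)) ≤ 2 * C * (H : ℝ) ^ κ * (1 / m) + 2 * C := by
    intro m hm
    rw [mem_Icc] at hm
    have hm0 : (m : ℤ) ≠ 0 := by omega
    have hmN : (m : ℝ) ≤ N := le_trans (by exact_mod_cast hm.2) hMN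
    have h1 := hmid H hH (m : ℤ) hm0 (by
      rw [Int.cast_natCast, abs_of_nonneg (Nat.cast_nonneg m)]; exact hmN)
    have h2 := hmid H hH (-(m : ℤ)) (neg_ne_zero.2 hm0) (by
      rw [Int.cast_neg, Int.cast_natCast, abs_neg, abs_of_nonneg (Nat.cast_nonneg m)]; exact hmN)
    rw [Int.cast_natCast, abs_of_nonneg (Nat.cast_nonneg m)] at h1
    rw [Int.cast_neg, Int.cast_natCast, abs_neg, abs_of_nonneg (Nat.cast_nonneg m)] at h2
    have h3 : 2 * C * (H : ℝ) ^ κ * (1 / m) + 2 * C = C * ((H : ℝ) ^ κ / m + 1) + C * ((H : ℝ) ^ κ / m + 1) := by ring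
    rw [h3]
    exact add_le_add h1 h2
  have hsum : ∑ m ∈ Icc 1 M, (((exc H (mv g (m : ℤ)) (m : ℤ)).card : ℝ) +
      ((exc H (mv g (-(m : ℤ))) (-(m : ℤ))).card : ℝ)) ≤ 2 * C * (H : ℝ) ^ κ * (1 + Real.log M) + 2 * C * M := by
    refine (Finset.sum_le_sum hper).trans ?_
    rw [Finset.sum_add_distrib, ← Finset.mul_sum, Finset.sum_const, Nat.card_Icc, nsmul_eq_mul]
    have h1 : ((M + 1 - 1 : ℕ) : ℝ) = M := by simp
    rw [h1]
    have h2 := sum_inv M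
    have h3 : 2 * C * (H : ℝ) ^ κ * ∑ m ∈ Icc 1 M, (1 : ℝ) / m ≤ 2 * C * (H : ℝ) ^ κ * (1 + Real.log M) := by
      gcongr
    linarith
  have hlog : 1 + Real.log M ≤ D1 * (H : ℝ) ^ (ε / 2) := by
    have h1 : Real.log M ≤ Real.log N := Real.log_le_log (by exact_mod_cast hM1) hMN
    have h2 : Real.log N = Real.log C₁ + 6 / 5 * Real.log H := by
      rw [hN, Real.log_mul (by linarith) (by positivity), Real.log_rpow hH0]
    have h3 := Real.log_le_rpow_div hH0.le (by linarith : 0 < ε / 2)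
    have h4 : 1 ≤ (H : ℝ) ^ (ε / 2) := Real.one_le_rpow hHr (by linarith)
    have h5 : (H : ℝ) ^ (ε / 2) / (ε / 2) = 2 / ε * (H : ℝ) ^ (ε / 2) := by field_simp
    rw [h5] at h3
    have h6 : (1 + Real.log C₁) * 1 ≤ (1 + Real.log C₁) * (H : ℝ) ^ (ε / 2) := by gcongr
    rw [hD1]
    nlinarith
  have p1 : (H : ℝ) ^ κ ≤ (H : ℝ) ^ (th e + ε) := Real.rpow_le_rpow_of_exponent_le hHr (by linarith)
  have p2 : (H : ℝ) ^ κ * (H : ℝ) ^ (ε / 2) ≤ (H : ℝ) ^ (th e + ε) := by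
    rw [← Real.rpow_add hH0]
    exact Real.rpow_le_rpow_of_exponent_le hHr (by linarith)
  have p3 : (H : ℝ) ^ (6 / 5 : ℝ) ≤ (H : ℝ) ^ (th e + ε) := Real.rpow_le_rpow_of_exponent_le hHr (by linarith)
  calc ((excs g H N).card : ℝ) ≤ D0 * (H : ℝ) ^ κ + (2 * C * (H : ℝ) ^ κ * (1 + Real.log M) + 2 * C * M) :=
        hcard.trans (add_le_add hz hsum)
    _ ≤ D0 * (H : ℝ) ^ κ + (2 * C * (H : ℝ) ^ κ * (D1 * (H : ℝ) ^ (ε / 2)) + 2 * C * (C₁ * (H : ℝ) ^ (6 / 5 : ℝ))) := by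
        gcongr
    _ = D0 * (H : ℝ) ^ κ + (2 * C * D1 * ((H : ℝ) ^ κ * (H : ℝ) ^ (ε / 2)) + 2 * C * C₁ * (H : ℝ) ^ (6 / 5 : ℝ)) := by
        ring
    _ ≤ D0 * (H : ℝ) ^ (th e + ε) + (2 * C * D1 * (H : ℝ) ^ (th e + ε) + 2 * C * C₁ * (H : ℝ) ^ (th e + ε)) := by
        gcongr
    _ = _ := by ring

end T9h23.Pe
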