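import Pool.Agent.T9h23.Pe.O5
import Pool.Agent.T9h23.Pe.O4

/-! # The expansions of the linear perturbations -/

set_option autoImplicit false

namespace T9h23.Pe

open Finset Polynomial T9h23.Ru T9h23.Op
open scoped Classical

/-- `g + p t + q` -/
def pert {d : ℕ} (g : Fin d → ℤ) (p q : ℤ) : Fin d → ℤ := fun i =>
  g i + (if (i : ℕ) = 1 then p else 0) + (if (i : ℕ) = 0 then q else 0)

theorem mv_pert {d : ℕ} (hd : 2 ≤ d) (g : Fin d → ℤ) (p q n : ℤ) : mv (pert g p q) n = mv g n + (p * n + q) := by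
  unfold mv pert
  simp only [add_mul]
  rw [Finset.sum_add_distrib, Finset.sum_add_distrib]
  have h1 : ∑ i : Fin d, (if (i : ℕ) = 1 then p else 0) * n ^ (i : ℕ) = p * n := by
    rw [Finset.sum_eq_single (⟨1, by omega⟩ : Fin d)]
    · simp
    · intro i _ hi
      rw [if_neg, zero_mul]
      intro h
      exact hi (Fin.ext h)
    · intro h
      exact absurd (mem_univ _) h
  have h2 : ∑ i : Fin d, (if (i : ℕ) = 0 then q else 0) * n ^ (i : ℕ) = q := by
    rw [Finset.sum_eq_single (⟨0, by omega⟩ : Fin d)]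
    · simp
    · intro i _ hi
      rw [if_neg, zero_mul]
      intro h
      exact hi (Fin.ext h)
    · intro h
      exact absurd (mem_univ _) h
  rw [h1, h2]
  ring

/-- comparison of the expansions of two polynomials with the same coefficients of index `> i₀` -/
theorem cf_comp {d : ℕ} (r : ℚ) (J : ℕ) (hJ : 2 ≤ J) (a b : Fin d → ℤ) (i₀ : Fin d)
    (hab : ∀ i : Fin d, (i₀ : ℕ) < i → a i = b i) :
    (∀ k < d - (i₀ : ℕ), cf r J (pol a) k = cf r J (pol b) k) ∧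
    cf r J (pol a) (d - (i₀ : ℕ)) - cf r J (pol b) (d - (i₀ : ℕ)) = r * ((a i₀ : ℚ) - b i₀) := by
  have hi₀ := i₀.isLt
  have hdvd : X ^ (d - (i₀ : ℕ)) ∣ pol a - pol b := by
    rw [X_pow_dvd_iff]
    intro k hk2
    rw [coeff_sub, coeff_pol, coeff_pol, ← Finset.sum_sub_distrib]
    refine Finset.sum_eq_zero fun i _ => ?_
    split_ifs with h1
    · rw [hab i (by omega), sub_self]
    · simp
  constructor
  · intro k hk
    unfold cf
    refine Finset.sum_congr rfl fun j _ => ?_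
    have h1 := hdvd.trans (sub_dvd_pow_sub_pow (pol a) (pol b) j)
    rw [X_pow_dvd_iff] at h1
    have h2 := h1 k hk
    rw [coeff_sub] at h2
    have h3 : (pol a ^ j).coeff k = (pol b ^ j).coeff k := by omega
    rw [h3]
  · unfold cf
    rw [← Finset.sum_sub_distrib, Finset.sum_eq_single 1]
    · rw [pow_one, pow_one, bc_one, coeff_pol_self, coeff_pol_self]
      ring
    · intro j hj hj1
      rcases Nat.lt_or_ge j 2 with h | h
      · have h0 : j = 0 := by omega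
        subst h0
        simp
      · have h2 := pow_sub_dvd (pol a) (pol b) (d - (i₀ : ℕ)) (coeff_pol_zero a) (coeff_pol_zero b) hdvd j h
        rw [X_pow_dvd_iff] at h2
        have h3 := h2 (d - (i₀ : ℕ)) (by omega)
        rw [coeff_sub] at h3
        have h4 : (pol a ^ j).coeff (d - (i₀ : ℕ)) = (pol b ^ j).coeff (d - (i₀ : ℕ)) := by omega
        rw [h4, sub_self]
    · intro h
      exact absurd (mem_range.2 (by omega)) h

theorem lam_low (e : ℕ) (he : 2 ≤ e) (g : Fin (3 * e) → ℤ) (p q : ℤ) (i : ℕ) (hi : i + 2 ≤ e) :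
    lam e (pert g p q) i = lam e g i := by
  unfold lam
  refine (cf_comp (2 / 3) (3 * e + 2) (by omega) (pert g p q) g ⟨1, by omega⟩ ?_).1 _ ?_
  · intro j hj
    have hj' : 1 < (j : ℕ) := hj
    unfold pert
    rw [if_neg (by omega), if_neg (by omega)]
    ring
  · dsimp only
    omega

theorem lam_top (e : ℕ) (he : 2 ≤ e) (g : Fin (3 * e) → ℤ) (p q : ℤ) :
    lam e (pert g p q) (e - 1) = lam e g (e - 1) + 2 / 3 * (p : ℚ) := by
  have h := (cf_comp (2 / 3) (3 * e + 2) (by omega) (pert g p q) g ⟨1, by omega⟩ (by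
    intro j hj
    have hj' : 1 < (j : ℕ) := hj
    unfold pert
    rw [if_neg (by omega), if_neg (by omega)]
    ring)).2
  unfold lam
  have h1 : 2 * e + (e - 1) = 3 * e - 1 := by omega
  rw [h1]
  dsimp only at h
  have h2 : pert g p q ⟨1, by omega⟩ = g ⟨1, by omega⟩ + p := by
    unfold pert
    simp
  rw [h2] at h
  push_cast at h
  linarith

theorem lam_one (g : Fin (3 * 1) → ℤ) (p q : ℤ) :
    lam 1 (pert g p q) 1 = lam 1 (pert g p 0) 1 + 2 / 3 * (q : ℚ) := by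
  have h := (cf_comp (2 / 3) (3 * 1 + 2) (by omega) (pert g p q) (pert g p 0) ⟨0, by omega⟩ (by
    intro j hj
    have hj' : 0 < (j : ℕ) := hj
    unfold pert
    rw [if_neg (by omega : ¬ (j : ℕ) = 0), if_neg (by omega : ¬ (j : ℕ) = 0)])).2
  unfold lam
  have h2 : pert g p q ⟨0, by omega⟩ = pert g p 0 ⟨0, by omega⟩ + q := by
    unfold pert
    simp
  rw [h2] at h
  dsimp only at h
  push_cast at h
  have h3 : 2 * 1 + 1 = 3 * 1 - 0 := rfl
  rw [h3]
  linarith

/-- the third coefficient -/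
theorem cf_three (P : ℤ[X]) (h0 : P.coeff 0 = 0) :
    cf (2 / 3) 5 P 3 = bc (2 / 3) 1 * P.coeff 3 + bc (2 / 3) 2 * (2 * P.coeff 1 * P.coeff 2) +
      bc (2 / 3) 3 * (P.coeff 1) ^ 3 := by
  obtain ⟨Q, rfl⟩ := X_dvd_iff.2 h0
  unfold cf
  have hc : ∀ j k : ℕ, ((X * Q) ^ j).coeff (k + j) = (Q ^ j).coeff k := by
    intro j k
    rw [mul_pow, coeff_X_pow_mul]
  have e0 : ((X * Q) ^ 0).coeff 3 = 0 := by
    rw [pow_zero, coeff_one]; norm_num
  have e1 : ((X * Q) ^ 1).coeff 3 = (X * Q).coeff 3 := by rw [pow_one]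
  have e2 : ((X * Q) ^ 2).coeff 3 = 2 * (X * Q).coeff 1 * (X * Q).coeff 2 := by
    have h1 := hc 2 1
    have h2 : (Q ^ 2).coeff 1 = 2 * Q.coeff 0 * Q.coeff 1 := by
      rw [pow_two, coeff_mul, Finset.Nat.sum_antidiagonal_eq_sum_range_succ_mk]
      simp only [Finset.sum_range_succ, Finset.sum_range_zero]
      norm_num
      ring
    rw [show (3 : ℕ) = 1 + 2 from rfl, h1, h2]
    simp [coeff_X_mul]
  have e3 : ((X * Q) ^ 3).coeff 3 = ((X * Q).coeff 1) ^ 3 := by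
    have h1 := hc 3 0
    rw [zero_add] at h1
    rw [h1]
    have h2 : (X * Q).coeff 1 = Q.coeff 0 := coeff_X_mul Q 0
    rw [h2, coeff_zero_eq_eval_zero, coeff_zero_eq_eval_zero, eval_pow]
  have e4 : ((X * Q) ^ 4).coeff 3 = 0 := by
    rw [mul_pow, coeff_X_pow_mul']
    norm_num
  rw [Finset.sum_range_succ, Finset.sum_range_succ, Finset.sum_range_succ, Finset.sum_range_succ,
    Finset.sum_range_succ, Finset.sum_range_zero, e0, e1, e2, e3, e4]
  push_cast
  ring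

theorem lam_one_le (g : Fin (3 * 1) → ℤ) : ∃ C : ℝ, 0 < C ∧ ∀ H : ℕ, 1 ≤ H → ∀ c ∈ sq H,
    |(lam 1 (pert g c.1 c.2) 1 : ℝ)| ≤ C * H := by
  set G : ℝ := (gs g : ℝ) with hG
  have hG1 : 1 ≤ G := by rw [hG]; exact_mod_cast gs_pos g
  refine ⟨|(bc (2 / 3) 1 : ℝ)| * (2 * G) + |(bc (2 / 3) 2 : ℝ)| * (2 * G * (2 * G)) + |(bc (2 / 3) 3 : ℝ)| * G ^ 3 + 1,
    by positivity, ?_⟩
  intro H hH c hc
  rw [mem_sq] at hc
  have hHr : (1 : ℝ) ≤ H := by exact_mod_cast hH
  have hgi : ∀ i : Fin (3 * 1), |(g i : ℝ)| ≤ G - 1 := by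
    intro i
    have h1 : |g i| ≤ gs g - 1 := by
      unfold gs
      rw [add_sub_cancel_left]
      exact Finset.single_le_sum (f := fun i => |g i|) (fun j _ => abs_nonneg _) (mem_univ i)
    rw [hG]
    exact_mod_cast h1
  have hp : |(c.1 : ℝ)| ≤ H := by exact_mod_cast hc.1
  have hq : |(c.2 : ℝ)| ≤ H := by exact_mod_cast hc.2
  set a := pert g c.1 c.2 with ha
  have c3 : (pol a).coeff 3 = a ⟨0, by omega⟩ := coeff_pol_self a ⟨0, by omega⟩
  have c2 : (pol a).coeff 2 = a ⟨1, by omega⟩ := coeff_pol_self a ⟨1, by omega⟩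
  have c1 : (pol a).coeff 1 = a ⟨2, by omega⟩ := coeff_pol_self a ⟨2, by omega⟩
  have a0 : a ⟨0, by omega⟩ = g ⟨0, by omega⟩ + c.2 := by
    rw [ha]; unfold pert; simp
  have a1 : a ⟨1, by omega⟩ = g ⟨1, by omega⟩ + c.1 := by
    rw [ha]; unfold pert; simp
  have a2 : a ⟨2, by omega⟩ = g ⟨2, by omega⟩ := by
    rw [ha]; unfold pert; simp
  have h1 : lam 1 a 1 = bc (2 / 3) 1 * (pol a).coeff 3 + bc (2 / 3) 2 * (2 * (pol a).coeff 1 * (pol a).coeff 2) +
      bc (2 / 3) 3 * ((pol a).coeff 1) ^ 3 := cf_three (pol a) (coeff_pol_zero a)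
  rw [c1, c2, c3, a0, a1, a2] at h1
  rw [h1]
  push_cast
  have hx : |(g ⟨0, by omega⟩ : ℝ) + c.2| ≤ 2 * G * H := by
    have := hgi ⟨0, by omega⟩
    refine (abs_add_le _ _).trans ?_
    nlinarith
  have hy : |(g ⟨1, by omega⟩ : ℝ) + c.1| ≤ 2 * G * H := by
    have := hgi ⟨1, by omega⟩
    refine (abs_add_le _ _).trans ?_
    nlinarith
  have hz : |(g ⟨2, by omega⟩ : ℝ)| ≤ G := by
    have := hgi ⟨2, by omega⟩
    linarith
  refine (abs_add_three _ _ _).trans ?_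
  rw [abs_mul, abs_mul, abs_mul, abs_mul, abs_mul, abs_pow, abs_of_pos (by norm_num : (0 : ℝ) < 2)]
  calc |(bc (2 / 3) 1 : ℝ)| * |(g ⟨0, by omega⟩ : ℝ) + c.2| +
        |(bc (2 / 3) 2 : ℝ)| * (2 * |(g ⟨2, by omega⟩ : ℝ)| * |(g ⟨1, by omega⟩ : ℝ) + c.1|) +
        |(bc (2 / 3) 3 : ℝ)| * |(g ⟨2, by omega⟩ : ℝ)| ^ 3
      ≤ |(bc (2 / 3) 1 : ℝ)| * (2 * G * H) + |(bc (2 / 3) 2 : ℝ)| * (2 * G * (2 * G * H)) +
        |(bc (2 / 3) 3 : ℝ)| * (G ^ 3 * H) := by
        gcongr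
        calc |(g ⟨2, by omega⟩ : ℝ)| ^ 3 ≤ G ^ 3 := by gcongr
          _ ≤ G ^ 3 * H := le_mul_of_one_le_right (by positivity) hHr
    _ ≤ _ := by nlinarith

/-- a box containing the perturbations -/
theorem box_h (e : ℕ) (he : 1 ≤ e) (g : Fin (3 * e) → ℤ) : ∃ Ch : ℝ, 1 ≤ Ch ∧ ∀ H : ℕ, 1 ≤ H → ∃ h : ℕ, 1 ≤ h ∧
    (h : ℝ) ^ (3 * e - 1) ≤ Ch * H ∧ ∀ c ∈ sq H, InBox h (pert g c.1 c.2) := by
  obtain ⟨G, hG⟩ : ∃ G : ℕ, (G : ℤ) = gs g := ⟨(gs g).toNat, Int.toNat_of_nonneg (by linarith [gs_pos g])⟩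
  have hG1 : 1 ≤ G := by
    have := gs_pos g
    rw [← hG] at this
    exact_mod_cast this
  refine ⟨(4 * (G : ℝ)) ^ (3 * e - 1), ?_, ?_⟩
  · apply one_le_pow₀
    have : (1 : ℝ) ≤ G := by exact_mod_cast hG1
    linarith
  intro H hH
  obtain ⟨k, hk0, hk1, hk2⟩ := T9h23.Tr.root_nat H hH (3 * e - 1) (by omega)
  have hk3 : H ≤ (2 * k) ^ (3 * e - 1) := by
    have h1 : ((H : ℝ) ^ (1 / ((3 * e - 1 : ℕ) : ℝ))) ^ (3 * e - 1) ≤ (2 * (k : ℝ)) ^ (3 * e - 1) :=
      pow_le_pow_left₀ (by positivity) hk2 _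
    rw [← Real.rpow_natCast _ (3 * e - 1), ← Real.rpow_mul (by positivity), one_div,
      inv_mul_cancel₀ (by have : 3 * e - 1 ≠ 0 := by omega
                          exact_mod_cast this), Real.rpow_one] at h1
    exact_mod_cast h1
  refine ⟨4 * G * k, by nlinarith, ?_, ?_⟩
  · push_cast
    rw [mul_pow]
    have : (k : ℝ) ^ (3 * e - 1) ≤ H := by exact_mod_cast hk1
    gcongr
  · intro c hc i
    rw [mem_sq] at hc
    have h1 : |g i| ≤ G - 1 := by
      rw [hG]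
      unfold gs
      rw [add_sub_cancel_left]
      exact Finset.single_le_sum (f := fun i => |g i|) (fun j _ => abs_nonneg _) (mem_univ i)
    have hh1 : (1 : ℤ) ≤ ((4 * G * k : ℕ) : ℤ) := by
      have : 1 ≤ 4 * G * k := by nlinarith
      exact_mod_cast this
    have hbig : (G : ℤ) + H ≤ ((4 * G * k : ℕ) : ℤ) ^ (3 * e - 1) := by
      have h2 : G + H ≤ (4 * G * k) ^ (3 * e - 1) := by
        have h3 : 4 * G * k = (2 * G) * (2 * k) := by ring
        rw [h3, mul_pow]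
        have h4 : 2 * G ≤ (2 * G) ^ (3 * e - 1) := Nat.le_self_pow (by omega) _
        calc G + H ≤ 2 * G * H := by nlinarith
          _ ≤ (2 * G) ^ (3 * e - 1) * (2 * k) ^ (3 * e - 1) := Nat.mul_le_mul h4 hk3
      exact_mod_cast h2
    have hi := i.isLt
    have hH0 : (0 : ℤ) ≤ H := by positivity
    rcases Nat.lt_or_ge (i : ℕ) 2 with h2 | h2
    · have h3 : |pert g c.1 c.2 i| ≤ (G : ℤ) + H := by
        unfold pert
        split_ifs with h4 h5 h5
        · omega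
        · rw [add_zero]
          refine (abs_add_le _ _).trans ?_
          linarith [hc.1]
        · rw [add_zero]
          refine (abs_add_le _ _).trans ?_
          linarith [hc.2]
        · omega
      refine h3.trans (hbig.trans ?_)
      exact pow_le_pow_right₀ hh1 (by omega)
    · have h3 : pert g c.1 c.2 i = g i := by
        unfold pert
        rw [if_neg (by omega), if_neg (by omega)]
        ring
      rw [h3]
      have h4 : |g i| ≤ ((4 * G * k : ℕ) : ℤ) := by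
        have h5 : (G : ℤ) ≤ ((4 * G * k : ℕ) : ℤ) := by
          have : G ≤ 4 * G * k := by nlinarith
          exact_mod_cast this
        linarith
      exact h4.trans (le_self_pow₀ hh1 (by omega))

end T9h23.Pe
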