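import Pool.Agent.T9h23.Tr.G1

/-! # Ordinates of the integral points with large abscissas, in short intervals -/

set_option autoImplicit false

namespace T9h23.Pe

open Finset T9h23.Ru T9h23.Tr
open scoped Classical

theorem bad_neg (y : ℤ) : Bad (-y) ↔ Bad y := by
  unfold Bad
  simp only [neg_sq]

/-- the abscissas are in a short interval -/
theorem gap_w (W T x x' y y' : ℝ) (hW : 1000 ≤ W) (hT : 1 ≤ T) (hTW : 66 * T ≤ W)
    (hy1 : W - T ≤ y) (hy2' : y' ≤ W + T) (hy1' : W - T ≤ y')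
    (hx : 1 ≤ x) (hxx : x ≤ x') (h : 32 * |y ^ 2 - x ^ 3| ≤ x) (h' : 32 * |y' ^ 2 - x' ^ 3| ≤ x') :
    9 / 10 * W ^ 2 ≤ x ^ 3 ∧ (x' - x) * (3 * x ^ 2) ≤ 41 / 10 * (W * T) := by
  have hW0 : 0 < W := by linarith
  have hx0 : 0 < x := by linarith
  have hx0' : 0 < x' := by linarith
  have hc1 := neg_abs_le (y ^ 2 - x ^ 3)
  have hc2 := le_abs_self (y' ^ 2 - x' ^ 3)
  have hc3 := le_abs_self (y ^ 2 - x ^ 3)
  have hc4 := neg_abs_le (y' ^ 2 - x' ^ 3)
  have hx3 : x ≤ x ^ 3 := le_self_pow₀ hx (by norm_num)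
  have hx3' : x' ≤ x' ^ 3 := le_self_pow₀ (by linarith) (by norm_num)
  have ysq1 : 24 / 25 * W ^ 2 ≤ y ^ 2 := by
    have h1 : (W - T) ^ 2 ≤ y ^ 2 := pow_le_pow_left₀ (by linarith) hy1 2
    nlinarith
  have ysq2 : y' ^ 2 ≤ (W + T) ^ 2 := pow_le_pow_left₀ (by linarith) hy2' 2
  have ysq3 : (W - T) ^ 2 ≤ y ^ 2 := pow_le_pow_left₀ (by linarith) hy1 2
  have hxW : 9 / 10 * W ^ 2 ≤ x ^ 3 := by nlinarith
  refine ⟨hxW, ?_⟩
  have hxW' : x' ^ 3 ≤ 11 / 10 * W ^ 2 := by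
    have h1 : (W + T) ^ 2 ≤ 104 / 100 * W ^ 2 := by nlinarith
    nlinarith
  have hx'W : x' ≤ W := by
    by_contra hcon
    push Not at hcon
    have h1 : W ^ 3 ≤ x' ^ 3 := pow_le_pow_left₀ hW0.le hcon.le 3
    have h2 : 2 * W ^ 2 ≤ W ^ 3 := by nlinarith [sq_nonneg W]
    have h3 : 0 < W ^ 2 := by positivity
    nlinarith
  have hdiff : x' ^ 3 - x ^ 3 ≤ 41 / 10 * (W * T) := by
    have h1 : (W + T) ^ 2 - (W - T) ^ 2 = 4 * (W * T) := by ring
    have h2 : W ≤ W * T := by nlinarith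
    nlinarith
  have h1 : (x' - x) * (3 * x ^ 2) ≤ x' ^ 3 - x ^ 3 := by
    have h2 : x' ^ 3 - x ^ 3 = (x' - x) * (x' ^ 2 + x' * x + x ^ 2) := by ring
    rw [h2]
    apply mul_le_mul_of_nonneg_left _ (by linarith)
    nlinarith
  linarith

/-- the case `w > 0` -/
theorem winE_pos (w : ℤ) (T : ℕ) (hw : 1000 ≤ w) (hT : 1 ≤ T) (hTw : 66 * (T : ℤ) ≤ w) :
    (((Icc (-(T : ℤ)) T).filter (fun c => Bad (w + c))).card : ℝ) ≤ 20 * ((T : ℝ) * (w : ℝ) ^ (-(4 / 9) : ℝ) + 1) := by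
  have hwr : (1000 : ℝ) ≤ w := by exact_mod_cast hw
  have hw0 : (0 : ℝ) < w := by linarith
  have hTr : (1 : ℝ) ≤ T := by exact_mod_cast hT
  have hTwr : 66 * (T : ℝ) ≤ w := by exact_mod_cast hTw
  set F := (Icc (-(T : ℤ)) T).filter (fun c => Bad (w + c)) with hF
  have hcF : ∀ c ∈ F, |c| ≤ T ∧ Bad (w + c) := by
    intro c hc
    rw [hF, mem_filter, mem_Icc, ← abs_le] at hc
    exact hc
  have hch : ∀ c : ℤ, ∃ x : ℤ, c ∈ F → 0 < x ∧ x.natAbs ∈ Pool.Agent.V60.Hall.E ∧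
      32 * |(w + c) ^ 2 - x ^ 3| < |x| := by
    intro c
    by_cases hc : c ∈ F
    · obtain ⟨c1, x, c2, c3⟩ := hcF c hc
      exact ⟨x, fun _ => ⟨bad_pos c3, bad_mem c2 c3, c3⟩⟩
    · exact ⟨0, fun h => absurd h hc⟩
  choose g hg using hch
  set s := F.image (fun c => (g c).natAbs) with hs
  have e1 : F.card = s.card := by
    rw [hs, Finset.card_image_of_injOn]
    intro a ha b hb hab
    obtain ⟨a1, -, a2⟩ := hg a ha
    obtain ⟨b1, -, b2⟩ := hg b hb
    have h3 : g a = g b := by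
      have h4 : ((g a).natAbs : ℤ) = ((g b).natAbs : ℤ) := by exact_mod_cast hab
      rwa [Int.natCast_natAbs, Int.natCast_natAbs, abs_of_pos a1, abs_of_pos b1] at h4
    rw [h3] at a2
    have h5 := bad_unique a2 b2
    have ha2 := (hcF a ha).1
    have hb2 := (hcF b hb).1
    rw [abs_le] at ha2 hb2
    rw [abs_of_pos (by linarith [ha2.1]), abs_of_pos (by linarith [hb2.1])] at h5
    linarith
  rcases F.eq_empty_or_nonempty with hE | hE
  · rw [hE, card_empty]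
    push_cast
    positivity
  · have hsne : s.Nonempty := hE.image _
    obtain ⟨c₀, hc₀, hmin⟩ := mem_image.1 (s.min'_mem hsne)
    obtain ⟨m1, -, m2⟩ := hg c₀ hc₀
    have hc₀T := (hcF c₀ hc₀).1
    rw [abs_le] at hc₀T
    have hXr : (((s.min' hsne : ℕ)) : ℝ) = (g c₀ : ℝ) := by
      rw [← hmin, Nat.cast_natAbs, abs_of_pos m1]
    rw [abs_of_pos m1] at m2
    have m2r : 32 * |((w : ℝ) + c₀) ^ 2 - (g c₀ : ℝ) ^ 3| ≤ g c₀ := by exact_mod_cast m2.le
    have hgap : ∀ x ∈ s, 9 / 10 * (w : ℝ) ^ 2 ≤ ((s.min' hsne : ℕ) : ℝ) ^ 3 ∧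
        ((x : ℝ) - (s.min' hsne : ℕ)) * (3 * ((s.min' hsne : ℕ) : ℝ) ^ 2) ≤ 41 / 10 * (w * T) := by
      intro x hx
      obtain ⟨c, hc, rfl⟩ := mem_image.1 hx
      obtain ⟨n1, -, n2⟩ := hg c hc
      have hcT := (hcF c hc).1
      rw [abs_le] at hcT
      rw [abs_of_pos n1] at n2
      have n2r : 32 * |((w : ℝ) + c) ^ 2 - (g c : ℝ) ^ 3| ≤ g c := by exact_mod_cast n2.le
      have h3 : (g c₀ : ℝ) ≤ g c := by
        have h4 := s.min'_le _ hx
        rw [← hmin] at h4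
        have h5 : ((g c₀).natAbs : ℤ) ≤ ((g c).natAbs : ℤ) := by exact_mod_cast h4
        rw [Int.natCast_natAbs, Int.natCast_natAbs, abs_of_pos m1, abs_of_pos n1] at h5
        exact_mod_cast h5
      have h4 := gap_w (w : ℝ) T (g c₀) (g c) (w + c₀) (w + c) hwr hTr hTwr
        (by have : (-(T : ℝ)) ≤ c₀ := by exact_mod_cast hc₀T.1
            linarith)
        (by have : (c : ℝ) ≤ T := by exact_mod_cast hcT.2
            linarith)
        (by have : (-(T : ℝ)) ≤ c := by exact_mod_cast hcT.1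
            linarith)
        (by exact_mod_cast m1) h3 m2r n2r
      rw [hXr]
      have h5 : (((g c).natAbs : ℕ) : ℝ) = (g c : ℝ) := by
        rw [Nat.cast_natAbs, abs_of_pos n1]
      rw [h5]
      exact h4
    set X := s.min' hsne with hX
    -- size of the smallest abscissa
    have hX3 := (hgap _ (s.min'_mem hsne)).1
    set z : ℝ := (w : ℝ) ^ (2 / 3 : ℝ) with hz
    have hz0 : 0 < z := by positivity
    have hz3 : z ^ 3 = (w : ℝ) ^ 2 := by
      rw [hz, ← Real.rpow_natCast, ← Real.rpow_mul hw0.le, ← Real.rpow_natCast (w : ℝ) 2]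
      norm_num
    have hz100 : 100 ≤ z := by
      by_contra hcon
      push Not at hcon
      have h1 : z ^ 3 < 100 ^ 3 := pow_lt_pow_left₀ hcon hz0.le (by norm_num)
      rw [hz3] at h1
      nlinarith
    have hX0 : (0 : ℝ) ≤ X := by positivity
    have hXz : 9 / 10 * z ≤ X := by
      by_contra hcon
      push Not at hcon
      have h1 : (X : ℝ) ^ 3 < (9 / 10 * z) ^ 3 := pow_lt_pow_left₀ hcon hX0 (by norm_num)
      have h2 : (9 / 10 * z) ^ 3 = 729 / 1000 * z ^ 3 := by ring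
      rw [h2, hz3] at h1
      nlinarith [sq_nonneg (w : ℝ)]
    have hXpos : 2 ≤ X := by
      have : (2 : ℝ) ≤ X := by linarith
      exact_mod_cast this
    -- the diameter
    set q : ℝ := (T : ℝ) * (w : ℝ) ^ (-(1 / 3) : ℝ) with hq
    have hq0 : 0 ≤ q := by positivity
    have hwz : (w : ℝ) ^ (-(1 / 3) : ℝ) * z ^ 2 = w := by
      rw [hz, ← Real.rpow_natCast, ← Real.rpow_mul hw0.le, ← Real.rpow_add hw0]
      norm_num
    have hqz : q * z ^ 2 = w * T := by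
      rw [hq, mul_assoc, hwz]; ring
    obtain ⟨D, hD⟩ : ∃ D : ℕ, D = ⌊2 * q⌋₊ := ⟨_, rfl⟩
    have hD2 : (D : ℝ) ≤ 2 * q := by
      rw [hD]; exact Nat.floor_le (by positivity)
    have hDx : ∀ x ∈ s, x ≤ X + D := by
      intro x hx
      have h3 := (hgap x hx).2
      have h6 := s.min'_le x hx
      have h7 : (X : ℝ) ≤ x := by exact_mod_cast h6
      have h4 : (x : ℝ) - X ≤ 2 * q := by
        have h5 : ((x : ℝ) - X) * (3 * (9 / 10 * z) ^ 2) ≤ 41 / 10 * (q * z ^ 2) := by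
          rw [hqz]
          refine le_trans ?_ h3
          have : (9 / 10 * z) ^ 2 ≤ (X : ℝ) ^ 2 := pow_le_pow_left₀ (by positivity) hXz 2
          apply mul_le_mul_of_nonneg_left _ (by linarith)
          linarith
        have h8 : ((x : ℝ) - X) * (243 / 100 * z ^ 2) ≤ (2 * q) * (243 / 100 * z ^ 2) := by
          have h9 : 0 ≤ q * z ^ 2 := by positivity
          nlinarith
        exact le_of_mul_le_mul_right h8 (by positivity)
      have h5 : x - X ≤ D := by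
        rw [hD]
        apply Nat.le_floor
        rw [Nat.cast_sub h6]
        exact h4
      omega
    have hqz2 : 66 * q ≤ z := by
      have h1 : 66 * q * z ^ 2 ≤ z * z ^ 2 := by
        have h2 : z * z ^ 2 = (w : ℝ) ^ 2 := by rw [← hz3]; ring
        rw [h2, mul_assoc, hqz]
        nlinarith
      exact le_of_mul_le_mul_right h1 (by positivity)
    have hDX : D + 2 ≤ X := by
      have h1 : ((D + 2 : ℕ) : ℝ) ≤ X := by
        push_cast
        linarith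
      exact_mod_cast h1
    obtain ⟨h, hh0, hh1, hh2⟩ := root_nat (X - 1) (by omega) 6 (by norm_num)
    have e2 := short_block (X - 1) h X D hh0 hh1 s (by
      intro x hx
      have h3 := hDx x hx
      have h4 := s.min'_le x hx
      obtain ⟨c, hc, rfl⟩ := mem_image.1 hx
      refine ⟨(hg c hc).2.1, ?_, ?_, ?_, h3⟩ <;> omega)
    rw [← e1] at e2
    have e3 : (F.card : ℝ) ≤ 2 * (D / h + 2) := by
      have h3 : ((F.card : ℕ) : ℝ) ≤ ((2 * (D / h + 2) : ℕ) : ℝ) := by exact_mod_cast e2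
      push_cast at h3
      have h4 : (((D / h : ℕ)) : ℝ) ≤ D / h := Nat.cast_div_le
      linarith
    have hhr : (0 : ℝ) < h := by exact_mod_cast hh0
    -- lower bound for `h`
    have hv : (w : ℝ) ^ (1 / 9 : ℝ) ≤ 4 * h := by
      have h1 : z / 2 ≤ ((X - 1 : ℕ) : ℝ) := by
        rw [Nat.cast_sub (by omega)]
        push_cast
        linarith
      have h2 : (z / 2) ^ (1 / ((6 : ℕ) : ℝ)) ≤ ((X - 1 : ℕ) : ℝ) ^ (1 / ((6 : ℕ) : ℝ)) :=
        Real.rpow_le_rpow (by positivity) h1 (by positivity)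
      have h3 : (w : ℝ) ^ (1 / 9 : ℝ) ≤ 2 * (z / 2) ^ (1 / ((6 : ℕ) : ℝ)) := by
        rw [Real.div_rpow hz0.le (by norm_num), hz, ← Real.rpow_mul hw0.le]
        have h4 : (2 : ℝ) / 3 * (1 / ((6 : ℕ) : ℝ)) = 1 / 9 := by push_cast; norm_num
        rw [h4]
        have h5 : (2 : ℝ) ^ (1 / ((6 : ℕ) : ℝ)) ≤ 2 := by
          calc (2 : ℝ) ^ (1 / ((6 : ℕ) : ℝ)) ≤ (2 : ℝ) ^ (1 : ℝ) :=
                Real.rpow_le_rpow_of_exponent_le (by norm_num) (by push_cast; norm_num)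
            _ = 2 := Real.rpow_one _
        have h6 : (0 : ℝ) < (2 : ℝ) ^ (1 / ((6 : ℕ) : ℝ)) := by positivity
        rw [mul_div_assoc', le_div_iff₀ h6]
        have h7 : 0 ≤ (w : ℝ) ^ (1 / 9 : ℝ) := by positivity
        nlinarith
      linarith
    have e4 : (D : ℝ) / h ≤ 8 * ((T : ℝ) * (w : ℝ) ^ (-(4 / 9) : ℝ)) := by
      rw [div_le_iff₀ hhr]
      have h5 : (w : ℝ) ^ (-(1 / 3) : ℝ) = (w : ℝ) ^ (-(4 / 9) : ℝ) * (w : ℝ) ^ (1 / 9 : ℝ) := by
        rw [← Real.rpow_add hw0]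
        norm_num
      calc (D : ℝ) ≤ 2 * q := hD2
        _ = 2 * (T : ℝ) * (w : ℝ) ^ (-(4 / 9) : ℝ) * (w : ℝ) ^ (1 / 9 : ℝ) := by rw [hq, h5]; ring
        _ ≤ 2 * (T : ℝ) * (w : ℝ) ^ (-(4 / 9) : ℝ) * (4 * h) := by gcongr
        _ = _ := by ring
    have h0 : 0 ≤ (T : ℝ) * (w : ℝ) ^ (-(4 / 9) : ℝ) := by positivity
    nlinarith

/-- **Exceptional ordinates near `w`.** -/
theorem winE (w : ℤ) (T : ℕ) (hw : 1000 ≤ |w|) (hT : 1 ≤ T) (hTw : 66 * (T : ℤ) ≤ |w|) :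
    (((Icc (-(T : ℤ)) T).filter (fun c => Bad (w + c))).card : ℝ) ≤
      20 * ((T : ℝ) * |(w : ℝ)| ^ (-(4 / 9) : ℝ) + 1) := by
  rcases le_total 0 w with hw0 | hw0
  · rw [abs_of_nonneg hw0] at hw hTw
    have : |(w : ℝ)| = w := abs_of_nonneg (by exact_mod_cast hw0)
    rw [this]
    exact winE_pos w T hw hT hTw
  · rw [abs_of_nonpos hw0] at hw hTw
    have : |(w : ℝ)| = ((-w : ℤ) : ℝ) := by
      rw [abs_of_nonpos (by exact_mod_cast hw0)]; push_cast; ring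
    rw [this]
    refine le_trans ?_ (winE_pos (-w) T hw hT hTw)
    have h4 : ((Icc (-(T : ℤ)) T).filter (fun c => Bad (w + c))).card ≤
        ((Icc (-(T : ℤ)) T).filter (fun c => Bad (-w + c))).card := by
      refine Finset.card_le_card_of_injOn (fun c => -c) ?_ (fun a _ b _ hab => neg_injective hab)
      intro c hc
      rw [Finset.mem_coe, mem_filter, mem_Icc] at hc ⊢
      dsimp only
      refine ⟨⟨by omega, by omega⟩, ?_⟩
      rw [← neg_add, bad_neg]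
      exact hc.2
    exact_mod_cast h4

end T9h23.Pe
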