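import Pool.Agent.T9h23.Pe.O1
import Pool.Agent.T9h23.Ru.R5

/-! # The linear perturbations with an exceptional value at a given argument -/

set_option autoImplicit false

namespace T9h23.Pe

open Finset T9h23.Ru T9h23.Op
open scoped Classical

/-- the pairs of integers in `[-H, H]` -/
noncomputable def sq (H : ℕ) : Finset (ℤ × ℤ) := Icc (-(H : ℤ)) H ×ˢ Icc (-(H : ℤ)) H

theorem mem_sq {H : ℕ} {c : ℤ × ℤ} : c ∈ sq H ↔ |c.1| ≤ H ∧ |c.2| ≤ H := by
  unfold sq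
  rw [mem_product, mem_Icc, mem_Icc, abs_le, abs_le]

/-- the pairs with an exceptional value `w + p n + q` -/
noncomputable def exc (H : ℕ) (w n : ℤ) : Finset (ℤ × ℤ) := (sq H).filter (fun c => Bad (w + (c.1 * n + c.2)))

/-- pairs with a given value -/
theorem fib (H : ℕ) (n v : ℤ) (hn : n ≠ 0) :
    (((sq H).filter (fun c => c.1 * n + c.2 = v)).card : ℝ) ≤ (2 * H + 1) / |(n : ℝ)| + 1 := by
  have h1 := res_card H |n| v (abs_pos.2 hn)
  rw [Int.cast_abs] at h1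
  refine le_trans ?_ h1
  have h2 : ((sq H).filter (fun c => c.1 * n + c.2 = v)).card ≤
      ((Icc (-(H : ℤ)) H).filter (fun t => |n| ∣ t - v)).card := by
    refine Finset.card_le_card_of_injOn Prod.snd ?_ ?_
    · intro c hc
      rw [Finset.mem_coe, mem_filter, mem_sq] at hc
      rw [Finset.mem_coe, mem_filter, mem_Icc, ← abs_le, abs_dvd]
      refine ⟨hc.1.2, ⟨-c.1, ?_⟩⟩
      rw [← hc.2]; ring
    · intro c hc c' hc' h
      rw [Finset.mem_coe, mem_filter] at hc hc'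
      have h3 := hc.2
      rw [← hc'.2] at h3
      have h4 : c.2 = c'.2 := h
      have h5 : c.1 * n = c'.1 * n := by rw [h4] at h3; linarith
      have h6 : c.1 = c'.1 := mul_right_cancel₀ hn h5
      exact Prod.ext h6 h4
  exact_mod_cast h2

/-- covering by the exceptional values -/
theorem cover (H : ℕ) (n w : ℤ) (hn : n ≠ 0) (V : Finset ℤ) (M : ℝ) (hM : (V.card : ℝ) ≤ M)
    (hV : ∀ c ∈ sq H, Bad (w + (c.1 * n + c.2)) → c.1 * n + c.2 ∈ V) :
    ((exc H w n).card : ℝ) ≤ M * ((2 * H + 1) / |(n : ℝ)| + 1) := by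
  have h1 := Finset.card_eq_sum_card_fiberwise (f := fun c : ℤ × ℤ => c.1 * n + c.2) (s := exc H w n) (t := V)
    (by
      intro c hc
      rw [Finset.mem_coe, exc, mem_filter] at hc
      exact hV c hc.1 hc.2)
  have h2 : ∀ v ∈ V, ((((exc H w n).filter (fun c => c.1 * n + c.2 = v)).card : ℕ) : ℝ) ≤
      (2 * H + 1) / |(n : ℝ)| + 1 := by
    intro v _
    refine le_trans ?_ (fib H n v hn)
    have : ((exc H w n).filter (fun c => c.1 * n + c.2 = v)).card ≤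
        ((sq H).filter (fun c => c.1 * n + c.2 = v)).card := by
      apply Finset.card_le_card
      exact Finset.filter_subset_filter _ (Finset.filter_subset _ _)
    exact_mod_cast this
  have h3 : ((exc H w n).card : ℝ) = ∑ v ∈ V, ((((exc H w n).filter (fun c => c.1 * n + c.2 = v)).card : ℕ) : ℝ) := by
    rw [h1]; push_cast; rfl
  rw [h3]
  refine (Finset.sum_le_card_nsmul _ _ _ h2).trans ?_
  rw [nsmul_eq_mul]
  have h4 : (0 : ℝ) ≤ (2 * H + 1) / |(n : ℝ)| + 1 := by positivity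
  gcongr

/-- the size of the perturbation -/
theorem size {H : ℕ} {c : ℤ × ℤ} (hc : c ∈ sq H) (n : ℤ) (hn : n ≠ 0) :
    |c.1 * n + c.2| ≤ ((2 * H * n.natAbs : ℕ) : ℤ) := by
  rw [mem_sq] at hc
  have h1 : 1 ≤ |n| := Int.one_le_abs hn
  have h2 : (n.natAbs : ℤ) = |n| := Int.natCast_natAbs n
  push_cast
  calc |c.1 * n + c.2| ≤ |c.1 * n| + |c.2| := abs_add_le _ _
    _ = |c.1| * |n| + |c.2| := by rw [abs_mul]
    _ ≤ H * |n| + H := by gcongr <;> tauto
    _ ≤ 2 * H * |n| := by nlinarith [(Nat.cast_nonneg H : (0 : ℤ) ≤ H)]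

/-- small arguments -/
theorem exc_small (K γ : ℝ)
    (hcount : ∀ Y : ℝ, 1 ≤ Y → ∀ U : Finset ℤ, (∀ y ∈ U, |(y : ℝ)| ≤ Y ∧ Bad y) → (U.card : ℝ) ≤ K * Y ^ γ)
    (H : ℕ) (n w : ℤ) (hn : n ≠ 0) (Y : ℝ) (hY : 1 ≤ Y) (hw : |(w : ℝ)| + 2 * H * |(n : ℝ)| ≤ Y) :
    ((exc H w n).card : ℝ) ≤ K * Y ^ γ * ((2 * H + 1) / |(n : ℝ)| + 1) := by
  set T : ℕ := 2 * H * n.natAbs with hT
  set V := (Icc (-(T : ℤ)) T).filter (fun v => Bad (w + v)) with hV
  have h1 : (V.card : ℝ) ≤ K * Y ^ γ := by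
    have h2 := hcount Y hY (V.image (fun v => w + v)) (by
      intro y hy
      rw [mem_image] at hy
      obtain ⟨v, hv, rfl⟩ := hy
      rw [hV, mem_filter, mem_Icc, ← abs_le] at hv
      refine ⟨?_, hv.2⟩
      refine le_trans ?_ hw
      push_cast
      have h3 : |(v : ℝ)| ≤ (T : ℝ) := by exact_mod_cast hv.1
      have h4 : (T : ℝ) = 2 * H * |(n : ℝ)| := by
        rw [hT]; push_cast; rw [Nat.cast_natAbs, Int.cast_abs]
      rw [h4] at h3
      exact (abs_add_le _ _).trans (by linarith))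
    rwa [Finset.card_image_of_injective _ (add_right_injective w)] at h2
  refine cover H n w hn V _ h1 ?_
  intro c hc hb
  rw [hV, mem_filter, mem_Icc, ← abs_le]
  exact ⟨size hc n hn, hb⟩

/-- argument zero -/
theorem exc_zero (K γ : ℝ)
    (hcount : ∀ Y : ℝ, 1 ≤ Y → ∀ U : Finset ℤ, (∀ y ∈ U, |(y : ℝ)| ≤ Y ∧ Bad y) → (U.card : ℝ) ≤ K * Y ^ γ)
    (H : ℕ) (w : ℤ) (Y : ℝ) (hY : 1 ≤ Y) (hw : |(w : ℝ)| + H ≤ Y) :
    ((exc H w 0).card : ℝ) ≤ (2 * H + 1) * (K * Y ^ γ) := by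
  set V := (Icc (-(H : ℤ)) H).filter (fun v => Bad (w + v)) with hV
  have h1 : (V.card : ℝ) ≤ K * Y ^ γ := by
    have h2 := hcount Y hY (V.image (fun v => w + v)) (by
      intro y hy
      rw [mem_image] at hy
      obtain ⟨v, hv, rfl⟩ := hy
      rw [hV, mem_filter, mem_Icc, ← abs_le] at hv
      refine ⟨?_, hv.2⟩
      refine le_trans ?_ hw
      push_cast
      have h3 : |(v : ℝ)| ≤ H := by exact_mod_cast hv.1
      exact (abs_add_le _ _).trans (by linarith))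
    rwa [Finset.card_image_of_injective _ (add_right_injective w)] at h2
  have h2 : exc H w 0 ⊆ Icc (-(H : ℤ)) H ×ˢ V := by
    intro c hc
    rw [exc, mem_filter, mem_sq, mul_zero, zero_add] at hc
    rw [mem_product, mem_Icc, ← abs_le, hV, mem_filter, mem_Icc, ← abs_le]
    exact ⟨hc.1.1, hc.1.2, hc.2⟩
  have h3 := Finset.card_le_card h2
  rw [Finset.card_product, Int.card_Icc] at h3
  have h4 : ((H : ℤ) + 1 - -(H : ℤ)).toNat = 2 * H + 1 := by omega
  rw [h4] at h3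
  calc ((exc H w 0).card : ℝ) ≤ (((2 * H + 1) * V.card : ℕ) : ℝ) := by exact_mod_cast h3
    _ = (2 * H + 1) * (V.card : ℝ) := by push_cast; ring
    _ ≤ _ := by gcongr

/-- larger arguments -/
theorem exc_large (H : ℕ) (hH : 1 ≤ H) (n w : ℤ) (hn : n ≠ 0) (hw : 1000 ≤ |w|)
    (hw2 : 66 * ((2 * H * n.natAbs : ℕ) : ℤ) ≤ |w|) :
    ((exc H w n).card : ℝ) ≤ 20 * (2 * H * |(n : ℝ)| * |(w : ℝ)| ^ (-(4 / 9) : ℝ) + 1) *
      ((2 * H + 1) / |(n : ℝ)| + 1) := by
  set T : ℕ := 2 * H * n.natAbs with hT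
  have hn1 : 1 ≤ n.natAbs := Int.natAbs_pos.2 hn
  have hT1 : 1 ≤ T := by
    rw [hT]
    nlinarith
  have h1 := winE w T hw hT1 hw2
  have h4 : (T : ℝ) = 2 * H * |(n : ℝ)| := by
    rw [hT]; push_cast; rw [Nat.cast_natAbs, Int.cast_abs]
  rw [h4] at h1
  refine cover H n w hn _ _ h1 ?_
  intro c hc hb
  rw [mem_filter, mem_Icc, ← abs_le]
  exact ⟨size hc n hn, hb⟩

end T9h23.Pe
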