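import Pool.Agent.T9h23.Ru.R4

/-! # Large arguments: Hall's inequality from the first nonzero negative coefficient of the expansion -/

set_option autoImplicit false

namespace T9h23.Pe

open Finset Polynomial T9h23.Ru

/-- the coefficients of negative degree of the expansion of `f ^ (2 / 3)`, `deg f = 3 e` -/
noncomputable def lam (e : ℕ) (a : Fin (3 * e) → ℤ) (i : ℕ) : ℚ := cf (2 / 3) (3 * e + 2) (pol a) (2 * e + i)

/-- **Distance from the integers.** -/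
theorem nearG (e : ℕ) (he : 1 ≤ e) : ∃ C₀ : ℝ, 1 ≤ C₀ ∧ ∀ h : ℕ, 1 ≤ h → ∀ a : Fin (3 * e) → ℤ,
    InBox h a → ∀ i₁ : ℕ, 1 ≤ i₁ → i₁ ≤ e + 1 → (∀ i, 1 ≤ i → i < i₁ → lam e a i = 0) → ∀ n : ℤ,
    C₀ * h ≤ |(n : ℝ)| → C₀ * |(lam e a i₁ : ℝ)| ≤ |(n : ℝ)| ^ i₁ →
    C₀ * (h : ℝ) ^ (2 * e + i₁ + 1) ≤ |(lam e a i₁ : ℝ)| * |(n : ℝ)| →
    ∃ s : ℝ, s ^ 3 = (mv a n : ℝ) ^ 2 ∧ |(n : ℝ)| ^ (2 * e) / 2 ≤ s ∧
      ∀ x : ℤ, |(lam e a i₁ : ℝ)| / |(n : ℝ)| ^ i₁ / 2 ≤ |s - x| := by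
  obtain ⟨C, hC, happ⟩ := approx (2 / 3) (3 * e) (3 * e + 2) (by omega)
  obtain ⟨D, hD, hden⟩ := cf_den (2 / 3) (3 * e + 2)
  obtain ⟨B, hB, hcf⟩ := cf_le (2 / 3) (3 * e + 2) (3 * e + 2)
  have hDr : (1 : ℝ) ≤ D := by exact_mod_cast hD
  obtain ⟨C', hC'⟩ : ∃ C' : ℝ, C' = C + (3 * e + 2 : ℕ) * B := ⟨_, rfl⟩
  have hC'0 : 0 < C' := by rw [hC']; positivity
  have he1 : (1 : ℝ) ≤ e := by exact_mod_cast he
  set C₀ : ℝ := 6 * e + 3 * D + 2 * C' + 1 with hC₀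
  have hC₀1 : 1 ≤ C₀ := by rw [hC₀]; nlinarith
  refine ⟨C₀, hC₀1, ?_⟩
  intro h hh a ha i₁ hi₁ hi₁e hzero n hn1 hH1 hH2
  have hh1 : (1 : ℝ) ≤ h := by exact_mod_cast hh
  have hnpos : 0 < |(n : ℝ)| := lt_of_lt_of_le (by positivity) hn1
  have hn0 : n ≠ 0 := by
    rintro rfl
    simp at hnpos
  have hnr : (n : ℝ) ≠ 0 := by exact_mod_cast hn0
  have hz : 2 * (((3 * e : ℕ) : ℝ) * ((h : ℝ) * |(n : ℝ)⁻¹|)) ≤ 1 := by
    rw [abs_inv]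
    push_cast
    rw [show 2 * (3 * (e : ℝ) * ((h : ℝ) * |(n : ℝ)|⁻¹)) = (6 * e * h) / |(n : ℝ)| by field_simp; ring,
      div_le_one hnpos]
    refine le_trans ?_ hn1
    have : 6 * (e : ℝ) ≤ C₀ := by rw [hC₀]; nlinarith
    gcongr
  obtain ⟨hu, hser⟩ := happ h (pol a) (natDegree_pol a) (coeff_pol_zero a) (coeff_pol_le a ha) _ hz
  set u := aeval ((n : ℝ)⁻¹) (pol a) with hu_def
  have hu1 : (1 : ℝ) / 2 ≤ 1 + u := by
    have := (abs_le.1 hu).1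
    linarith
  have hu0 : 0 < 1 + u := by linarith
  set w := (1 + u) ^ (((2 / 3 : ℚ)) : ℝ) with hw
  have hw3 : w ^ 3 = (1 + u) ^ 2 := by
    rw [hw, ← Real.rpow_natCast, ← Real.rpow_mul hu0.le]
    push_cast
    norm_num
  have hw1 : 1 / 2 ≤ w := by
    have h1 : (1 / 2 : ℝ) ^ (1 : ℝ) ≤ (1 / 2 : ℝ) ^ (((2 / 3 : ℚ)) : ℝ) :=
      Real.rpow_le_rpow_of_exponent_ge (by norm_num) (by norm_num) (by push_cast; norm_num)
    rw [Real.rpow_one] at h1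
    exact h1.trans (Real.rpow_le_rpow (by norm_num) hu1 (by push_cast; norm_num))
  have hev : (n : ℝ) ^ (2 * e) = |(n : ℝ)| ^ (2 * e) := by
    rw [pow_mul, pow_mul, sq_abs]
  refine ⟨(n : ℝ) ^ (2 * e) * w, ?_, ?_, ?_⟩
  · rw [mul_pow, hw3, mv_eq a n hn0, mul_pow, ← pow_mul, ← pow_mul]
    congr 2
    ring
  · rw [hev]
    have : 0 ≤ |(n : ℝ)| ^ (2 * e) := by positivity
    nlinarith
  · intro x
    obtain ⟨f, hf⟩ : ∃ f : ℕ → ℝ, f = fun k => ((cf (2 / 3) (3 * e + 2) (pol a) k : ℚ) : ℝ) := ⟨_, rfl⟩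
    have hser' : |w - ∑ k ∈ range (3 * e + 2), f k * (n : ℝ)⁻¹ ^ k| ≤ C * ((h : ℝ) * |(n : ℝ)⁻¹|) ^ (3 * e + 2) := by
      rw [hf]; exact hser
    have hΛ : (lam e a i₁ : ℝ) = f (2 * e + i₁) := by rw [hf]; rfl
    obtain ⟨Λ, hΛd⟩ : ∃ Λ : ℝ, Λ = (lam e a i₁ : ℝ) := ⟨_, rfl⟩
    rw [← hΛd] at hH1 hH2 hΛ ⊢
    -- the polynomial part
    obtain ⟨zf, hzf⟩ : ∃ zf : ℕ → ℤ, ∀ k, (D : ℚ) * cf (2 / 3) (3 * e + 2) (pol a) k = zf k :=
      ⟨fun k => (hden (pol a) k).choose, fun k => (hden (pol a) k).choose_spec⟩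
    set g : ℝ := ∑ k ∈ range (2 * e + 1), f k * (n : ℝ) ^ (2 * e - k) with hg
    have hG : (D : ℝ) * g = ((∑ k ∈ range (2 * e + 1), zf k * n ^ (2 * e - k) : ℤ) : ℝ) := by
      rw [hg, Finset.mul_sum]
      push_cast
      refine Finset.sum_congr rfl fun k _ => ?_
      have h1 : (D : ℝ) * f k = (zf k : ℝ) := by rw [hf]; dsimp only; exact_mod_cast hzf k
      rw [← mul_assoc, h1]
    have hq : (h : ℝ) * |(n : ℝ)⁻¹| ≤ 1 := by
      rw [abs_inv, ← div_eq_mul_inv, div_le_one hnpos]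
      nlinarith
    have hq0 : 0 ≤ (h : ℝ) * |(n : ℝ)⁻¹| := by positivity
    have hN : 2 * e + i₁ + 1 ≤ 3 * e + 2 := by omega
    have htail : |∑ k ∈ Ico (2 * e + i₁ + 1) (3 * e + 2), f k * (n : ℝ)⁻¹ ^ k| ≤
        (3 * e + 2 : ℕ) * B * ((h : ℝ) * |(n : ℝ)⁻¹|) ^ (2 * e + i₁ + 1) := by
      refine (Finset.abs_sum_le_sum_abs _ _).trans ?_
      have h1 : ∀ k ∈ Ico (2 * e + i₁ + 1) (3 * e + 2), |f k * (n : ℝ)⁻¹ ^ k| ≤
          B * ((h : ℝ) * |(n : ℝ)⁻¹|) ^ (2 * e + i₁ + 1) := by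
        intro k hk
        rw [mem_Ico] at hk
        rw [abs_mul, abs_pow]
        calc |f k| * |(n : ℝ)⁻¹| ^ k ≤ (B * (h : ℝ) ^ k) * |(n : ℝ)⁻¹| ^ k := by
              gcongr
              rw [hf]
              exact hcf h (pol a) (coeff_pol_le a ha) k hk.2
          _ = B * ((h : ℝ) * |(n : ℝ)⁻¹|) ^ k := by rw [mul_pow]; ring
          _ ≤ B * ((h : ℝ) * |(n : ℝ)⁻¹|) ^ (2 * e + i₁ + 1) := by
              refine mul_le_mul_of_nonneg_left (pow_le_pow_of_le_one hq0 hq hk.1) hB.le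
      refine (Finset.sum_le_card_nsmul _ _ _ h1).trans ?_
      rw [Nat.card_Ico, nsmul_eq_mul, mul_assoc]
      have h4 : ((3 * e + 2 - (2 * e + i₁ + 1) : ℕ) : ℝ) ≤ (3 * e + 2 : ℕ) := by exact_mod_cast Nat.sub_le _ _
      have h5 : 0 ≤ B * ((h : ℝ) * |(n : ℝ)⁻¹|) ^ (2 * e + i₁ + 1) := by positivity
      gcongr
    have hmidz : ∑ k ∈ Ico (2 * e + 1) (2 * e + i₁), f k * (n : ℝ)⁻¹ ^ k = 0 := by
      refine Finset.sum_eq_zero fun k hk => ?_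
      rw [mem_Ico] at hk
      have h1 := hzero (k - 2 * e) (by omega) (by omega)
      have h2 : f k = 0 := by
        rw [hf]
        have h3 : cf (2 / 3) (3 * e + 2) (pol a) k = lam e a (k - 2 * e) := by
          unfold lam
          congr 1
          omega
        dsimp only
        rw [h3, h1]
        norm_num
      rw [h2, zero_mul]
    have hw2 : |w - (∑ k ∈ range (2 * e + 1), f k * (n : ℝ)⁻¹ ^ k + Λ * (n : ℝ)⁻¹ ^ (2 * e + i₁))| ≤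
        C' * ((h : ℝ) * |(n : ℝ)⁻¹|) ^ (2 * e + i₁ + 1) := by
      have h1 : ∑ k ∈ range (3 * e + 2), f k * (n : ℝ)⁻¹ ^ k = ∑ k ∈ range (2 * e + 1), f k * (n : ℝ)⁻¹ ^ k +
          Λ * (n : ℝ)⁻¹ ^ (2 * e + i₁) + ∑ k ∈ Ico (2 * e + i₁ + 1) (3 * e + 2), f k * (n : ℝ)⁻¹ ^ k := by
        rw [← Finset.sum_range_add_sum_Ico _ hN, Finset.sum_range_succ, hΛ]
        have h2 : ∑ k ∈ range (2 * e + i₁), f k * (n : ℝ)⁻¹ ^ k = ∑ k ∈ range (2 * e + 1), f k * (n : ℝ)⁻¹ ^ k := by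
          rw [← Finset.sum_range_add_sum_Ico _ (by omega : 2 * e + 1 ≤ 2 * e + i₁), hmidz, add_zero]
        rw [h2]
      rw [h1] at hser'
      have h2 : C * ((h : ℝ) * |(n : ℝ)⁻¹|) ^ (3 * e + 2) ≤ C * ((h : ℝ) * |(n : ℝ)⁻¹|) ^ (2 * e + i₁ + 1) :=
        mul_le_mul_of_nonneg_left (pow_le_pow_of_le_one hq0 hq hN) hC.le
      have h3 := abs_add_le (w - (∑ k ∈ range (2 * e + 1), f k * (n : ℝ)⁻¹ ^ k + Λ * (n : ℝ)⁻¹ ^ (2 * e + i₁) +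
        ∑ k ∈ Ico (2 * e + i₁ + 1) (3 * e + 2), f k * (n : ℝ)⁻¹ ^ k))
        (∑ k ∈ Ico (2 * e + i₁ + 1) (3 * e + 2), f k * (n : ℝ)⁻¹ ^ k)
      have h4 : w - (∑ k ∈ range (2 * e + 1), f k * (n : ℝ)⁻¹ ^ k + Λ * (n : ℝ)⁻¹ ^ (2 * e + i₁) +
        ∑ k ∈ Ico (2 * e + i₁ + 1) (3 * e + 2), f k * (n : ℝ)⁻¹ ^ k) +
        ∑ k ∈ Ico (2 * e + i₁ + 1) (3 * e + 2), f k * (n : ℝ)⁻¹ ^ k =
        w - (∑ k ∈ range (2 * e + 1), f k * (n : ℝ)⁻¹ ^ k + Λ * (n : ℝ)⁻¹ ^ (2 * e + i₁)) := by ring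
      rw [h4] at h3
      rw [hC', add_mul]
      linarith
    have hsplit : (n : ℝ) ^ (2 * e) * (∑ k ∈ range (2 * e + 1), f k * (n : ℝ)⁻¹ ^ k +
        Λ * (n : ℝ)⁻¹ ^ (2 * e + i₁)) = g + Λ / (n : ℝ) ^ i₁ := by
      rw [mul_add, Finset.mul_sum, hg]
      congr 1
      · refine Finset.sum_congr rfl fun k hk => ?_
        rw [mem_range] at hk
        have e1 : (n : ℝ) ^ (2 * e) = (n : ℝ) ^ (2 * e - k) * (n : ℝ) ^ k := by
          rw [← pow_add]; congr 1; omega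
        rw [e1, inv_pow]
        field_simp
      · rw [inv_pow, pow_add]
        field_simp
    obtain ⟨ρ, hρ⟩ : ∃ ρ : ℝ, ρ = |Λ| / |(n : ℝ)| ^ i₁ := ⟨_, rfl⟩
    have hρ0 : 0 ≤ ρ := by rw [hρ]; positivity
    have hρ1 : |Λ / (n : ℝ) ^ i₁| = ρ := by rw [abs_div, abs_pow, hρ]
    rw [← hρ]
    have hρC : C₀ * ρ ≤ 1 := by
      rw [hρ, ← mul_div_assoc, div_le_one (by positivity)]
      exact hH1
    have herr : |(n : ℝ) ^ (2 * e) * w - (g + Λ / (n : ℝ) ^ i₁)| ≤ ρ / 2 := by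
      rw [← hsplit, ← mul_sub, abs_mul, hev, abs_of_nonneg (by positivity : 0 ≤ |(n : ℝ)| ^ (2 * e))]
      have h1 : |(n : ℝ)| ^ (2 * e) * (C' * ((h : ℝ) * |(n : ℝ)⁻¹|) ^ (2 * e + i₁ + 1)) =
          C' * (h : ℝ) ^ (2 * e + i₁ + 1) / (|(n : ℝ)| ^ i₁ * |(n : ℝ)|) := by
        rw [mul_pow, abs_inv, inv_pow, pow_add |(n : ℝ)|, pow_add |(n : ℝ)|, pow_one]
        field_simp
      refine (mul_le_mul_of_nonneg_left hw2 (by positivity)).trans ?_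
      rw [h1, hρ, div_div, div_le_div_iff₀ (by positivity) (by positivity)]
      have h2 : 2 * C' * (h : ℝ) ^ (2 * e + i₁ + 1) ≤ |Λ| * |(n : ℝ)| := by
        refine le_trans ?_ hH2
        gcongr
        rw [hC₀]
        nlinarith
      have h3 : 0 ≤ |(n : ℝ)| ^ i₁ := by positivity
      nlinarith
    by_cases hx : (D : ℝ) * g = D * x
    · -- the integer is the value of the polynomial part
      have hgx : g = x := mul_left_cancel₀ (by positivity) hx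
      rw [hgx] at herr
      have h2 := abs_sub_abs_le_abs_sub (Λ / (n : ℝ) ^ i₁) (-((n : ℝ) ^ (2 * e) * w - x - Λ / (n : ℝ) ^ i₁))
      have h3 : Λ / (n : ℝ) ^ i₁ - -((n : ℝ) ^ (2 * e) * w - x - Λ / (n : ℝ) ^ i₁) = (n : ℝ) ^ (2 * e) * w - x := by
        ring
      rw [h3, abs_neg] at h2
      have h4 : (n : ℝ) ^ (2 * e) * w - x - Λ / (n : ℝ) ^ i₁ = (n : ℝ) ^ (2 * e) * w - (x + Λ / (n : ℝ) ^ i₁) := by
        ring
      rw [h4, hρ1] at h2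
      linarith
    · -- a different integer
      have h1 : 1 / (D : ℝ) ≤ |g - x| := by
        have h2 : (1 : ℝ) ≤ |(D : ℝ) * g - D * x| := by
          rw [hG] at hx ⊢
          have h3 : ((∑ k ∈ range (2 * e + 1), zf k * n ^ (2 * e - k) : ℤ) : ℝ) - D * x =
              (((∑ k ∈ range (2 * e + 1), zf k * n ^ (2 * e - k)) - D * x : ℤ) : ℝ) := by push_cast; ring
          rw [h3]
          have h4 : (∑ k ∈ range (2 * e + 1), zf k * n ^ (2 * e - k)) - D * x ≠ 0 := by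
            intro h5
            apply hx
            have h6 : (∑ k ∈ range (2 * e + 1), zf k * n ^ (2 * e - k)) = D * x := by linarith
            rw [h6]; push_cast; ring
          exact_mod_cast Int.one_le_abs h4
        rw [← mul_sub, abs_mul, abs_of_pos (by positivity : (0 : ℝ) < D)] at h2
        rw [div_le_iff₀ (by positivity)]
        linarith
      have h3 : |(n : ℝ) ^ (2 * e) * w - g| ≤ 3 / 2 * ρ := by
        have e1 : (n : ℝ) ^ (2 * e) * w - g = ((n : ℝ) ^ (2 * e) * w - (g + Λ / (n : ℝ) ^ i₁)) + Λ / (n : ℝ) ^ i₁ := by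
          ring
        rw [e1]
        refine (abs_add_le _ _).trans ?_
        rw [hρ1]
        linarith
      have h5 : |g - x| ≤ |(n : ℝ) ^ (2 * e) * w - g| + |(n : ℝ) ^ (2 * e) * w - x| := by
        have e1 : g - x = -((n : ℝ) ^ (2 * e) * w - g) + ((n : ℝ) ^ (2 * e) * w - x) := by ring
        rw [e1]
        refine (abs_add_le _ _).trans ?_
        rw [abs_neg]
      have h6 : 3 * (D : ℝ) * ρ ≤ 1 := by
        refine le_trans ?_ hρC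
        gcongr
        rw [hC₀]
        nlinarith
      have h7 : 3 * ρ ≤ 1 / D := by
        rw [le_div_iff₀ (by positivity)]
        linarith
      linarith

/-- **Hall's inequality for large arguments.** -/
theorem largeG (e : ℕ) (he : 1 ≤ e) : ∃ C₀ : ℝ, 1 ≤ C₀ ∧ ∀ h : ℕ, 1 ≤ h → ∀ a : Fin (3 * e) → ℤ,
    InBox h a → ∀ i₁ : ℕ, 1 ≤ i₁ → i₁ ≤ e + 1 → i₁ < 2 * e → (∀ i, 1 ≤ i → i < i₁ → lam e a i = 0) → ∀ n : ℤ,
    C₀ * h ≤ |(n : ℝ)| → C₀ * |(lam e a i₁ : ℝ)| ≤ |(n : ℝ)| ^ i₁ →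
    C₀ * (h : ℝ) ^ (2 * e + i₁ + 1) ≤ |(lam e a i₁ : ℝ)| * |(n : ℝ)| →
    ∀ x : ℤ, |x| ≤ 32 * |(mv a n) ^ 2 - x ^ 3| := by
  obtain ⟨C₀, hC₀, hnear⟩ := nearG e he
  refine ⟨C₀, hC₀, ?_⟩
  intro h hh a ha i₁ hi₁ hi₁e hi₁2 hzero n hn1 hH1 hH2 x
  have hh1 : (1 : ℝ) ≤ h := by exact_mod_cast hh
  obtain ⟨s, hs3, hs, hsx⟩ := hnear h hh a ha i₁ hi₁ hi₁e hzero n hn1 hH1 hH2
  have hx := hsx x
  obtain ⟨m, hm⟩ : ∃ m : ℝ, m = |(n : ℝ)| := ⟨_, rfl⟩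
  rw [← hm] at hn1 hH2 hs hx
  obtain ⟨Λ, hΛ⟩ : ∃ Λ : ℝ, Λ = |(lam e a i₁ : ℝ)| := ⟨_, rfl⟩
  rw [← hΛ] at hH2 hx
  have hΛ0 : 0 ≤ Λ := by rw [hΛ]; exact abs_nonneg _
  have hm1 : 1 ≤ m := by nlinarith
  have hm0 : 0 < m := by linarith
  have hΛm : 1 ≤ Λ * m := by
    refine le_trans ?_ hH2
    have : (1 : ℝ) ≤ (h : ℝ) ^ (2 * e + i₁ + 1) := one_le_pow₀ hh1
    nlinarith
  -- real version
  have key : |(x : ℝ)| ≤ 32 * |(mv a n : ℝ) ^ 2 - (x : ℝ) ^ 3| := by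
    rw [← hs3]
    have hfac : s ^ 3 - (x : ℝ) ^ 3 = (s - x) * (s ^ 2 + s * x + x ^ 2) := by ring
    have hq1 : 3 / 4 * s ^ 2 ≤ s ^ 2 + s * x + x ^ 2 := by nlinarith [sq_nonneg (s / 2 + x)]
    have hq2 : 3 / 4 * (x : ℝ) ^ 2 ≤ s ^ 2 + s * x + x ^ 2 := by nlinarith [sq_nonneg (s + x / 2)]
    have hq0 : 0 ≤ s ^ 2 + s * x + x ^ 2 := le_trans (by positivity) hq1
    rw [hfac, abs_mul, abs_of_nonneg hq0]
    have hs0 : 0 < s := lt_of_lt_of_le (by positivity) hs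
    by_cases hc1 : |(x : ℝ)| ≤ 2 * s
    · have h0 : 0 ≤ Λ / m ^ i₁ / 2 := by positivity
      have h1 : Λ / m ^ i₁ / 2 * (3 / 4 * s ^ 2) ≤ |s - x| * (s ^ 2 + s * x + x ^ 2) := by gcongr
      have h3 : 1 / 4 ≤ Λ / m ^ i₁ / 2 * s := by
        have h4 : m ^ (2 * e) = m ^ i₁ * m ^ (2 * e - i₁) := by
          rw [← pow_add]; congr 1; omega
        have h5 : m ≤ m ^ (2 * e - i₁) := le_self_pow₀ hm1 (by omega)
        have h6 : Λ / m ^ i₁ / 2 * (m ^ (2 * e) / 2) = Λ * m ^ (2 * e - i₁) / 4 := by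
          rw [h4]; field_simp; ring
        have h7 : Λ / m ^ i₁ / 2 * (m ^ (2 * e) / 2) ≤ Λ / m ^ i₁ / 2 * s := by gcongr
        have h8 : Λ * m ≤ Λ * m ^ (2 * e - i₁) := by gcongr
        linarith
      have h4 : Λ / m ^ i₁ / 2 * (3 / 4 * s ^ 2) = 3 / 4 * (Λ / m ^ i₁ / 2 * s) * s := by ring
      have h5 : 3 / 16 * s ≤ 3 / 4 * (Λ / m ^ i₁ / 2 * s) * s := by
        apply mul_le_mul_of_nonneg_right _ hs0.le
        linarith
      linarith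
    · push Not at hc1
      have hs1 : 1 / 2 ≤ s := by
        have : 1 ≤ m ^ (2 * e) := one_le_pow₀ hm1
        linarith
      have hxr : 1 ≤ |(x : ℝ)| := by
        have hx0 : x ≠ 0 := by
          rintro rfl
          simp at hc1
          linarith
        have : 1 ≤ |x| := Int.one_le_abs hx0
        exact_mod_cast this
      have h1 : |(x : ℝ)| / 2 ≤ |s - x| := by
        have h2 := abs_sub_abs_le_abs_sub (x : ℝ) s
        rw [abs_sub_comm] at h2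
        rw [abs_of_pos hs0] at h2
        linarith
      have h2 : |(x : ℝ)| / 2 * (3 / 4 * (x : ℝ) ^ 2) ≤ |s - x| * (s ^ 2 + s * x + x ^ 2) := by gcongr
      have h3 : 1 ≤ (x : ℝ) ^ 2 := by
        rw [← sq_abs]; exact one_le_pow₀ hxr
      have h4 : |(x : ℝ)| / 2 * (3 / 4 * 1) ≤ |(x : ℝ)| / 2 * (3 / 4 * (x : ℝ) ^ 2) := by gcongr
      linarith
  exact_mod_cast key

end T9h23.Pe
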