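import Pool.Agent.T9h23.Pe.O6

/-! # Few linear perturbations with an exceptional value at a large argument -/

set_option autoImplicit false

namespace T9h23.Pe

open Finset Polynomial T9h23.Ru T9h23.Op
open scoped Classical

/-- the pairs with an exceptional value at a large argument -/
noncomputable def excl {d : ℕ} (g : Fin d → ℤ) (H : ℕ) (N : ℝ) : Finset (ℤ × ℤ) :=
  (sq H).filter (fun c => ∃ n : ℤ, N ≤ |(n : ℝ)| ∧ Bad (mv g n + (c.1 * n + c.2)))

/-- lower bound for the nonzero coefficients -/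
theorem lam_ge (e : ℕ) : ∃ D : ℝ, 1 ≤ D ∧ ∀ (a : Fin (3 * e) → ℤ) (i : ℕ), lam e a i ≠ 0 →
    1 ≤ D * |(lam e a i : ℝ)| := by
  obtain ⟨D, hD, hden⟩ := cf_den (2 / 3) (3 * e + 2)
  refine ⟨D, by exact_mod_cast hD, ?_⟩
  intro a i h
  obtain ⟨z, hz⟩ := hden (pol a) (2 * e + i)
  have hz' : (D : ℚ) * lam e a i = z := hz
  have hz0 : z ≠ 0 := by
    rintro rfl
    rw [Int.cast_zero, mul_eq_zero] at hz'
    rcases hz' with h1 | h1
    · have : D = 0 := by exact_mod_cast h1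
      omega
    · exact h h1
  have h1 : (D : ℝ) * (lam e a i : ℝ) = z := by exact_mod_cast hz'
  have h2 : (D : ℝ) * |(lam e a i : ℝ)| = |(z : ℝ)| := by
    rw [← h1, abs_mul, abs_of_nonneg (Nat.cast_nonneg D : (0 : ℝ) ≤ D)]
  rw [h2]
  exact_mod_cast Int.one_le_abs hz0

/-- exclusion of the exceptional pairs outside of a small set -/
theorem excl_le {d : ℕ} (g : Fin d → ℤ) (H : ℕ) (N : ℝ) (S : Finset (ℤ × ℤ)) (M : ℝ) (hM : (S.card : ℝ) ≤ M)
    (h : ∀ c ∈ sq H, c ∉ S → ∀ n : ℤ, N ≤ |(n : ℝ)| → ¬ Bad (mv g n + (c.1 * n + c.2))) :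
    ((excl g H N).card : ℝ) ≤ M := by
  refine le_trans ?_ hM
  have : excl g H N ⊆ S := by
    intro c hc
    rw [excl, mem_filter] at hc
    obtain ⟨h1, n, h2, h3⟩ := hc
    by_contra hcon
    exact h c h1 hcon n h2 h3
  exact_mod_cast Finset.card_le_card this

/-- **Large arguments.** -/
theorem good (e : ℕ) (he : 1 ≤ e) (g : Fin (3 * e) → ℤ) : ∃ C₁ C₂ : ℝ, 1 ≤ C₁ ∧ 0 < C₂ ∧ ∀ H : ℕ, 1 ≤ H →
    ((excl g H (C₁ * (H : ℝ) ^ (6 / 5 : ℝ))).card : ℝ) ≤ C₂ * (H : ℝ) ^ (th e) := by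
  obtain ⟨C₀, hC₀, hlarge⟩ := largeG e he
  obtain ⟨D, hD, hge⟩ := lam_ge e
  obtain ⟨Ch, hCh, hbox⟩ := box_h e he g
  have hC₀0 : 0 < C₀ := by linarith
  have hCh0 : 0 < Ch := by linarith
  have he1 : (1 : ℝ) ≤ e := by exact_mod_cast he
  have h3e : (0 : ℝ) < 3 * e - 1 := by linarith
  have hθ : 14 / 9 ≤ th e := by
    rw [th]
    have hr1 : 1 ≤ 3 * (e : ℝ) / (3 * e - 1) := by
      rw [le_div_iff₀ h3e]; linarith
    linarith
  -- the conclusion from the size of the first nonzero coefficient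
  have hconc : ∀ (H : ℕ), 1 ≤ H → ∀ (N : ℝ), 1 ≤ N → ∀ h : ℕ, 1 ≤ h → ∀ c ∈ sq H, InBox h (pert g c.1 c.2) →
      ∀ i₁ : ℕ, 1 ≤ i₁ → i₁ ≤ e + 1 → i₁ < 2 * e → (∀ i, 1 ≤ i → i < i₁ → lam e (pert g c.1 c.2) i = 0) →
      C₀ * h ≤ N → C₀ * |(lam e (pert g c.1 c.2) i₁ : ℝ)| ≤ N →
      C₀ * (h : ℝ) ^ (2 * e + i₁ + 1) ≤ |(lam e (pert g c.1 c.2) i₁ : ℝ)| * N →
      ∀ n : ℤ, N ≤ |(n : ℝ)| → ¬ Bad (mv g n + (c.1 * n + c.2)) := by
    intro H hH N hN h hh c hc hin i₁ hi₁ hi₁e hi₁2 hz k1 k2 k3 n hn hbad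
    have hn1 : 1 ≤ |(n : ℝ)| := hN.trans hn
    obtain ⟨x, hx1, hx2⟩ := hbad
    have h1 := hlarge h hh (pert g c.1 c.2) hin i₁ hi₁ hi₁e hi₁2 hz n (k1.trans hn)
      (k2.trans (hn.trans (le_self_pow₀ hn1 (by omega))))
      (k3.trans (by gcongr)) x
    rw [mv_pert (by omega)] at h1
    linarith
  rcases Nat.lt_or_ge e 2 with hcase | hcase
  · -- cubic polynomials
    have he' : e = 1 := by omega
    subst he'
    obtain ⟨Cl, hCl, hle⟩ := lam_one_le g
    set C₁ : ℝ := C₀ * Ch + C₀ * Cl + C₀ * Ch ^ 2 + 1 with hC₁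
    have hC₁1 : 1 ≤ C₁ := by
      rw [hC₁]
      have : 0 ≤ C₀ * Ch + C₀ * Cl + C₀ * Ch ^ 2 := by positivity
      linarith
    refine ⟨C₁, 12, hC₁1, by norm_num, ?_⟩
    intro H hH
    have hHr : (1 : ℝ) ≤ H := by exact_mod_cast hH
    have hH0 : (0 : ℝ) < H := by linarith
    obtain ⟨h, hh, hhp, hin⟩ := hbox H hH
    have hhr : (1 : ℝ) ≤ h := by exact_mod_cast hh
    have hR1 : 1 ≤ (H : ℝ) ^ (4 / 5 : ℝ) := Real.one_le_rpow hHr (by norm_num)
    have hH65 : (H : ℝ) ≤ (H : ℝ) ^ (6 / 5 : ℝ) := by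
      nth_rewrite 1 [← Real.rpow_one (H : ℝ)]
      exact Real.rpow_le_rpow_of_exponent_le hHr (by norm_num)
    have hN : ∀ t : ℝ, t ≤ C₁ → t * (H : ℝ) ^ (6 / 5 : ℝ) ≤ C₁ * (H : ℝ) ^ (6 / 5 : ℝ) := by
      intro t ht
      gcongr
    set S := (sq H).filter (fun c => |(lam 1 (pert g c.1 c.2) 1 : ℝ)| < (H : ℝ) ^ (4 / 5 : ℝ)) with hS
    refine excl_le g H _ S _ ?_ ?_
    · -- few small coefficients
      have h1 : ∀ p ∈ Icc (-(H : ℤ)) H, (((S.filter (fun c => c.1 = p)).card : ℕ) : ℝ) ≤ 4 * (H : ℝ) ^ (4 / 5 : ℝ) := by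
        intro p _
        have hinj : Set.InjOn (fun c : ℤ × ℤ => c.2) (S.filter (fun c => c.1 = p) : Set (ℤ × ℤ)) := by
          intro b hb c hc hbc
          rw [Finset.mem_coe, mem_filter] at hb hc
          exact Prod.ext (hb.2.trans hc.2.symm) hbc
        rw [← Finset.card_image_of_injOn hinj]
        have h2 := card_near ((S.filter (fun c => c.1 = p)).image (fun c : ℤ × ℤ => c.2))
          (-(3 / 2) * (lam 1 (pert g p 0) 1 : ℝ)) (3 / 2 * (H : ℝ) ^ (4 / 5 : ℝ)) (by positivity) (by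
            intro t ht
            rw [mem_image] at ht
            obtain ⟨b, hb, rfl⟩ := ht
            rw [mem_filter, hS, mem_filter] at hb
            have h3 := lam_one g b.1 b.2
            have h4 : (lam 1 (pert g b.1 b.2) 1 : ℝ) = (lam 1 (pert g b.1 0) 1 : ℝ) + 2 / 3 * (b.2 : ℝ) := by
              have h7 := congrArg (fun q : ℚ => (q : ℝ)) h3
              push_cast at h7
              exact h7
            rw [hb.2] at h4
            have h5 : (b.2 : ℝ) - (-(3 / 2) * (lam 1 (pert g p 0) 1 : ℝ)) = 3 / 2 * (lam 1 (pert g p b.2) 1 : ℝ) := by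
              linarith
            have h6 := hb.1.2
            rw [hb.2] at h6
            rw [h5, abs_mul, show |(3 / 2 : ℝ)| = 3 / 2 by norm_num]
            linarith)
        linarith
      have h2 := Finset.card_eq_sum_card_fiberwise (f := fun c : ℤ × ℤ => c.1) (s := S) (t := Icc (-(H : ℤ)) H)
        (by
          intro c hc
          rw [Finset.mem_coe, hS, mem_filter, mem_sq] at hc
          rw [Finset.mem_coe, mem_Icc, ← abs_le]
          exact hc.1.1)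
      have h3 : (S.card : ℝ) = ∑ p ∈ Icc (-(H : ℤ)) H, (((S.filter (fun c => c.1 = p)).card : ℕ) : ℝ) := by
        rw [h2]; push_cast; rfl
      rw [h3]
      refine (Finset.sum_le_card_nsmul _ _ _ h1).trans ?_
      rw [nsmul_eq_mul, Int.card_Icc]
      have h4 : ((H : ℤ) + 1 - -(H : ℤ)).toNat = 2 * H + 1 := by omega
      rw [h4]
      push_cast
      have h5 : H * (H : ℝ) ^ (4 / 5 : ℝ) ≤ (H : ℝ) ^ (th 1) := by
        nth_rewrite 1 [← Real.rpow_one (H : ℝ)]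
        rw [← Real.rpow_add hH0]
        apply Real.rpow_le_rpow_of_exponent_le hHr
        rw [th]
        push_cast
        norm_num
      calc (2 * (H : ℝ) + 1) * (4 * (H : ℝ) ^ (4 / 5 : ℝ)) ≤ (3 * H) * (4 * (H : ℝ) ^ (4 / 5 : ℝ)) := by
            gcongr
            linarith
        _ = 12 * (H * (H : ℝ) ^ (4 / 5 : ℝ)) := by ring
        _ ≤ _ := by gcongr
    · intro c hc hcS
      have hbig : (H : ℝ) ^ (4 / 5 : ℝ) ≤ |(lam 1 (pert g c.1 c.2) 1 : ℝ)| := by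
        by_contra hcon
        push Not at hcon
        apply hcS
        rw [hS, mem_filter]
        exact ⟨hc, hcon⟩
      have hh2 : (h : ℝ) ^ 2 ≤ Ch * H := hhp
      refine hconc H hH _ (by nlinarith) h hh c hc (hin c hc) 1 le_rfl (by omega) (by omega) ?_ ?_ ?_ ?_
      · intro i hi1 hi2
        omega
      · have h1 : (h : ℝ) ≤ Ch * H := le_trans (by nlinarith) hh2
        calc C₀ * h ≤ C₀ * (Ch * (H : ℝ) ^ (6 / 5 : ℝ)) := by
              gcongr
              exact h1.trans (by gcongr)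
          _ = (C₀ * Ch) * (H : ℝ) ^ (6 / 5 : ℝ) := by ring
          _ ≤ _ := hN _ (by
              rw [hC₁]
              have : 0 ≤ C₀ * Cl + C₀ * Ch ^ 2 := by positivity
              linarith)
      · calc C₀ * |(lam 1 (pert g c.1 c.2) 1 : ℝ)| ≤ C₀ * (Cl * (H : ℝ) ^ (6 / 5 : ℝ)) := by
              gcongr
              exact (hle H hH c hc).trans (by gcongr)
          _ = (C₀ * Cl) * (H : ℝ) ^ (6 / 5 : ℝ) := by ring
          _ ≤ _ := hN _ (by
              rw [hC₁]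
              have : 0 ≤ C₀ * Ch + C₀ * Ch ^ 2 := by positivity
              linarith)
      · have h1 : (h : ℝ) ^ (2 * 1 + 1 + 1) = ((h : ℝ) ^ 2) ^ 2 := by ring
        rw [h1]
        have h2 : (H : ℝ) ^ 2 = (H : ℝ) ^ (4 / 5 : ℝ) * (H : ℝ) ^ (6 / 5 : ℝ) := by
          rw [← Real.rpow_add hH0, ← Real.rpow_natCast]
          norm_num
        calc C₀ * ((h : ℝ) ^ 2) ^ 2 ≤ C₀ * (Ch * H) ^ 2 := by gcongr
          _ = (H : ℝ) ^ (4 / 5 : ℝ) * ((C₀ * Ch ^ 2) * (H : ℝ) ^ (6 / 5 : ℝ)) := by rw [mul_pow, h2]; ring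
          _ ≤ |(lam 1 (pert g c.1 c.2) 1 : ℝ)| * (C₁ * (H : ℝ) ^ (6 / 5 : ℝ)) := by
              refine mul_le_mul hbig (hN _ ?_) (by positivity) (abs_nonneg _)
              rw [hC₁]
              have : 0 ≤ C₀ * Ch + C₀ * Cl := by positivity
              linarith
  · -- degree at least `6`
    have hpow : ∀ (H h : ℕ), 1 ≤ H → 1 ≤ h → (h : ℝ) ^ (3 * e - 1) ≤ Ch * H →
        (h : ℝ) ≤ Ch * (H : ℝ) ^ (6 / 5 : ℝ) ∧ (h : ℝ) ^ (3 * e - 1) ≤ Ch * (H : ℝ) ^ (6 / 5 : ℝ) ∧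
        (h : ℝ) ^ (3 * e) ≤ Ch ^ 2 * (H : ℝ) ^ (6 / 5 : ℝ) := by
      intro H h hH hh hhp
      have hHr : (1 : ℝ) ≤ H := by exact_mod_cast hH
      have hH0 : (0 : ℝ) < H := by linarith
      have hhr : (1 : ℝ) ≤ h := by exact_mod_cast hh
      have hH65 : (H : ℝ) ≤ (H : ℝ) ^ (6 / 5 : ℝ) := by
        nth_rewrite 1 [← Real.rpow_one (H : ℝ)]
        exact Real.rpow_le_rpow_of_exponent_le hHr (by norm_num)
      have h1 : (h : ℝ) ^ (3 * e - 1) ≤ Ch * (H : ℝ) ^ (6 / 5 : ℝ) := hhp.trans (by gcongr)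
      refine ⟨le_trans (le_self_pow₀ hhr (by omega)) h1, h1, ?_⟩
      have h2 : (h : ℝ) ^ (3 * e) = (h : ℝ) ^ (3 * e - 1) * h := by
        rw [← pow_succ]; congr 1; omega
      have h3 : (h : ℝ) ≤ Ch * (H : ℝ) ^ (1 / 5 : ℝ) := by
        by_contra hcon
        push Not at hcon
        have h4 : (Ch * (H : ℝ) ^ (1 / 5 : ℝ)) ^ 5 < (h : ℝ) ^ 5 :=
          pow_lt_pow_left₀ hcon (by positivity) (by norm_num)
        have h5 : (h : ℝ) ^ 5 ≤ (h : ℝ) ^ (3 * e - 1) := pow_le_pow_right₀ hhr (by omega)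
        have h6 : (Ch * (H : ℝ) ^ (1 / 5 : ℝ)) ^ 5 = Ch ^ 5 * H := by
          rw [mul_pow, ← Real.rpow_natCast ((H : ℝ) ^ (1 / 5 : ℝ)), ← Real.rpow_mul hH0.le]
          norm_num
        have h7 : Ch ≤ Ch ^ 5 := le_self_pow₀ hCh (by norm_num)
        rw [h6] at h4
        nlinarith
      have h8 : H * (H : ℝ) ^ (1 / 5 : ℝ) = (H : ℝ) ^ (6 / 5 : ℝ) := by
        nth_rewrite 1 [← Real.rpow_one (H : ℝ)]
        rw [← Real.rpow_add hH0]
        norm_num
      rw [h2]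
      calc (h : ℝ) ^ (3 * e - 1) * h ≤ (Ch * H) * (Ch * (H : ℝ) ^ (1 / 5 : ℝ)) := by gcongr
        _ = Ch ^ 2 * (H * (H : ℝ) ^ (1 / 5 : ℝ)) := by ring
        _ = _ := by rw [h8]
    by_cases hex : ∃ i, 1 ≤ i ∧ i + 2 ≤ e ∧ lam e g i ≠ 0
    · -- a nonzero coefficient of `g`
      set i₁ := Nat.find hex with hi₁d
      obtain ⟨hi₁, hi₁e, hi₁n⟩ := Nat.find_spec hex
      rw [← hi₁d] at hi₁ hi₁e hi₁n
      set Λ : ℝ := |(lam e g i₁ : ℝ)| with hΛ
      have hΛ1 : 1 ≤ D * Λ := hge g i₁ hi₁n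
      have hΛ0 : 0 ≤ Λ := abs_nonneg _
      set C₁ : ℝ := C₀ * Ch + C₀ * Λ + C₀ * Ch * D + 1 with hC₁
      have hC₁1 : 1 ≤ C₁ := by
        rw [hC₁]
        have : 0 ≤ C₀ * Ch + C₀ * Λ + C₀ * Ch * D := by positivity
        linarith
      refine ⟨C₁, 1, hC₁1, one_pos, ?_⟩
      intro H hH
      have hHr : (1 : ℝ) ≤ H := by exact_mod_cast hH
      have hH0 : (0 : ℝ) < H := by linarith
      obtain ⟨h, hh, hhp, hin⟩ := hbox H hH
      have hhr : (1 : ℝ) ≤ h := by exact_mod_cast hh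
      obtain ⟨q1, q2, q3⟩ := hpow H h hH hh hhp
      have hH1 : 1 ≤ (H : ℝ) ^ (6 / 5 : ℝ) := Real.one_le_rpow hHr (by norm_num)
      have hN : ∀ t : ℝ, t ≤ C₁ → t * (H : ℝ) ^ (6 / 5 : ℝ) ≤ C₁ * (H : ℝ) ^ (6 / 5 : ℝ) := by
        intro t ht
        gcongr
      refine excl_le g H _ ∅ _ ?_ ?_
      · rw [card_empty]
        push_cast
        positivity
      · intro c hc _
        have hlam : lam e (pert g c.1 c.2) i₁ = lam e g i₁ := lam_low e hcase g c.1 c.2 i₁ hi₁e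
        refine hconc H hH _ (by nlinarith) h hh c hc (hin c hc) i₁ hi₁ (by omega) (by omega) ?_ ?_ ?_ ?_
        · intro i hi1 hi2
          rw [lam_low e hcase g c.1 c.2 i (by omega)]
          by_contra hcon
          have := Nat.find_min hex hi2
          exact this ⟨hi1, by omega, hcon⟩
        · calc C₀ * h ≤ C₀ * (Ch * (H : ℝ) ^ (6 / 5 : ℝ)) := by gcongr
            _ = (C₀ * Ch) * (H : ℝ) ^ (6 / 5 : ℝ) := by ring
            _ ≤ _ := hN _ (by
                rw [hC₁]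
                have : 0 ≤ C₀ * Λ + C₀ * Ch * D := by positivity
                linarith)
        · rw [hlam, ← hΛ]
          calc C₀ * Λ ≤ (C₀ * Λ) * (H : ℝ) ^ (6 / 5 : ℝ) := le_mul_of_one_le_right (by positivity) hH1
            _ ≤ _ := hN _ (by
                rw [hC₁]
                have : 0 ≤ C₀ * Ch + C₀ * Ch * D := by positivity
                linarith)
        · rw [hlam, ← hΛ]
          have h1 : (h : ℝ) ^ (2 * e + i₁ + 1) ≤ Ch * (H : ℝ) ^ (6 / 5 : ℝ) :=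
            le_trans (pow_le_pow_right₀ hhr (by omega)) q2
          have h2 : (C₀ * Ch * D) * (H : ℝ) ^ (6 / 5 : ℝ) ≤ C₁ * (H : ℝ) ^ (6 / 5 : ℝ) := hN _ (by
                rw [hC₁]
                have : 0 ≤ C₀ * Ch + C₀ * Λ := by positivity
                linarith)
          calc C₀ * (h : ℝ) ^ (2 * e + i₁ + 1) ≤ C₀ * (Ch * (H : ℝ) ^ (6 / 5 : ℝ)) := by gcongr
            _ = 1 * (C₀ * Ch * (H : ℝ) ^ (6 / 5 : ℝ)) := by ring
            _ ≤ (D * Λ) * (C₀ * Ch * (H : ℝ) ^ (6 / 5 : ℝ)) := by gcongr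
            _ = Λ * ((C₀ * Ch * D) * (H : ℝ) ^ (6 / 5 : ℝ)) := by ring
            _ ≤ _ := by gcongr
    · -- the coefficient `e - 1`
      push Not at hex
      set l0 : ℝ := |(lam e g (e - 1) : ℝ)| with hl0
      have hl00 : 0 ≤ l0 := abs_nonneg _
      set C₁ : ℝ := C₀ * Ch + C₀ * (l0 + 1) + C₀ * Ch ^ 2 * D + 1 with hC₁
      have hC₁1 : 1 ≤ C₁ := by
        rw [hC₁]
        have : 0 ≤ C₀ * Ch + C₀ * (l0 + 1) + C₀ * Ch ^ 2 * D := by positivity
        linarith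
      refine ⟨C₁, 3, hC₁1, by norm_num, ?_⟩
      intro H hH
      have hHr : (1 : ℝ) ≤ H := by exact_mod_cast hH
      have hH0 : (0 : ℝ) < H := by linarith
      obtain ⟨h, hh, hhp, hin⟩ := hbox H hH
      have hhr : (1 : ℝ) ≤ h := by exact_mod_cast hh
      obtain ⟨q1, q2, q3⟩ := hpow H h hH hh hhp
      have hH1 : 1 ≤ (H : ℝ) ^ (6 / 5 : ℝ) := Real.one_le_rpow hHr (by norm_num)
      have hH65 : (H : ℝ) ≤ (H : ℝ) ^ (6 / 5 : ℝ) := by
        nth_rewrite 1 [← Real.rpow_one (H : ℝ)]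
        exact Real.rpow_le_rpow_of_exponent_le hHr (by norm_num)
      have hN : ∀ t : ℝ, t ≤ C₁ → t * (H : ℝ) ^ (6 / 5 : ℝ) ≤ C₁ * (H : ℝ) ^ (6 / 5 : ℝ) := by
        intro t ht
        gcongr
      set S := (sq H).filter (fun c => lam e (pert g c.1 c.2) (e - 1) = 0) with hS
      refine excl_le g H _ S _ ?_ ?_
      · have h1 : S.card ≤ (Icc (-(H : ℤ)) H).card := by
          refine Finset.card_le_card_of_injOn Prod.snd ?_ ?_
          · intro c hc
            rw [Finset.mem_coe, hS, mem_filter, mem_sq] at hc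
            rw [Finset.mem_coe, mem_Icc, ← abs_le]
            exact hc.1.2
          · intro b hb c hc hbc
            rw [Finset.mem_coe, hS, mem_filter, lam_top e hcase] at hb hc
            have h2 : (b.1 : ℚ) = c.1 := by linarith [hb.2, hc.2]
            exact Prod.ext (by exact_mod_cast h2) hbc
        rw [Int.card_Icc] at h1
        have h4 : ((H : ℤ) + 1 - -(H : ℤ)).toNat = 2 * H + 1 := by omega
        rw [h4] at h1
        have h5 : (H : ℝ) ≤ (H : ℝ) ^ (th e) := by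
          nth_rewrite 1 [← Real.rpow_one (H : ℝ)]
          exact Real.rpow_le_rpow_of_exponent_le hHr (by linarith)
        calc (S.card : ℝ) ≤ ((2 * H + 1 : ℕ) : ℝ) := by exact_mod_cast h1
          _ ≤ 3 * H := by push_cast; linarith
          _ ≤ _ := by gcongr
      · intro c hc hcS
        have hne : lam e (pert g c.1 c.2) (e - 1) ≠ 0 := by
          intro h0
          apply hcS
          rw [hS, mem_filter]
          exact ⟨hc, h0⟩
        have hlow := hge _ _ hne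
        have hup : |(lam e (pert g c.1 c.2) (e - 1) : ℝ)| ≤ (l0 + 1) * H := by
          rw [lam_top e hcase]
          push_cast
          refine (abs_add_le _ _).trans ?_
          rw [mem_sq] at hc
          have h1 : |(c.1 : ℝ)| ≤ H := by exact_mod_cast hc.1
          rw [abs_mul, show |(2 / 3 : ℝ)| = 2 / 3 by norm_num, ← hl0]
          nlinarith [abs_nonneg (c.1 : ℝ)]
        refine hconc H hH _ (by nlinarith) h hh c hc (hin c hc) (e - 1) (by omega) (by omega) (by omega) ?_ ?_ ?_ ?_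
        · intro i hi1 hi2
          rw [lam_low e hcase g c.1 c.2 i (by omega)]
          exact hex i hi1 (by omega)
        · calc C₀ * h ≤ C₀ * (Ch * (H : ℝ) ^ (6 / 5 : ℝ)) := by gcongr
            _ = (C₀ * Ch) * (H : ℝ) ^ (6 / 5 : ℝ) := by ring
            _ ≤ _ := hN _ (by
                rw [hC₁]
                have : 0 ≤ C₀ * (l0 + 1) + C₀ * Ch ^ 2 * D := by positivity
                linarith)
        · calc C₀ * |(lam e (pert g c.1 c.2) (e - 1) : ℝ)| ≤ C₀ * ((l0 + 1) * (H : ℝ) ^ (6 / 5 : ℝ)) := by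
                gcongr
                exact hup.trans (by gcongr)
            _ = (C₀ * (l0 + 1)) * (H : ℝ) ^ (6 / 5 : ℝ) := by ring
            _ ≤ _ := hN _ (by
                rw [hC₁]
                have : 0 ≤ C₀ * Ch + C₀ * Ch ^ 2 * D := by positivity
                linarith)
        · have h0 : 2 * e + (e - 1) + 1 = 3 * e := by omega
          rw [h0]
          have h2 : (C₀ * Ch ^ 2 * D) * (H : ℝ) ^ (6 / 5 : ℝ) ≤ C₁ * (H : ℝ) ^ (6 / 5 : ℝ) := hN _ (by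
                rw [hC₁]
                have : 0 ≤ C₀ * Ch + C₀ * (l0 + 1) := by positivity
                linarith)
          obtain ⟨Λ, hΛ⟩ : ∃ Λ : ℝ, Λ = |(lam e (pert g c.1 c.2) (e - 1) : ℝ)| := ⟨_, rfl⟩
          rw [← hΛ] at hlow ⊢
          have hΛ0 : 0 ≤ Λ := by rw [hΛ]; exact abs_nonneg _
          calc C₀ * (h : ℝ) ^ (3 * e) ≤ C₀ * (Ch ^ 2 * (H : ℝ) ^ (6 / 5 : ℝ)) := by gcongr
            _ = 1 * (C₀ * Ch ^ 2 * (H : ℝ) ^ (6 / 5 : ℝ)) := by ring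
            _ ≤ (D * Λ) * (C₀ * Ch ^ 2 * (H : ℝ) ^ (6 / 5 : ℝ)) := by gcongr
            _ = Λ * ((C₀ * Ch ^ 2 * D) * (H : ℝ) ^ (6 / 5 : ℝ)) := by ring
            _ ≤ _ := by gcongr

/-- **Theorem.** -/
theorem final (e : ℕ) (he : 1 ≤ e) (g : Fin (3 * e) → ℤ) (ε : ℝ) (hε : 0 < ε) : ∃ K : ℝ, 0 < K ∧ ∀ H : ℕ, 1 ≤ H →
    (((sq H).filter (fun c => ∃ n : ℤ, Bad (mv g n + (c.1 * n + c.2)))).card : ℝ) ≤ K * (H : ℝ) ^ (th e + ε) := by
  obtain ⟨C₁, C₂, hC₁, hC₂, hgood⟩ := good e he g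
  obtain ⟨C, hC, htot⟩ := total e he g C₁ hC₁ ε hε
  refine ⟨C + C₂, by positivity, ?_⟩
  intro H hH
  have hHr : (1 : ℝ) ≤ H := by exact_mod_cast hH
  have h1 : (sq H).filter (fun c => ∃ n : ℤ, Bad (mv g n + (c.1 * n + c.2))) ⊆
      excs g H (C₁ * (H : ℝ) ^ (6 / 5 : ℝ)) ∪ excl g H (C₁ * (H : ℝ) ^ (6 / 5 : ℝ)) := by
    intro c hc
    rw [mem_filter] at hc
    obtain ⟨hc1, n, hb⟩ := hc
    rw [mem_union]
    rcases le_total |(n : ℝ)| (C₁ * (H : ℝ) ^ (6 / 5 : ℝ)) with h | h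
    · left
      rw [excs, mem_filter]
      exact ⟨hc1, n, h, hb⟩
    · right
      rw [excl, mem_filter]
      exact ⟨hc1, n, h, hb⟩
  have h2 : (((sq H).filter (fun c => ∃ n : ℤ, Bad (mv g n + (c.1 * n + c.2)))).card : ℝ) ≤
      ((excs g H (C₁ * (H : ℝ) ^ (6 / 5 : ℝ))).card : ℝ) + ((excl g H (C₁ * (H : ℝ) ^ (6 / 5 : ℝ))).card : ℝ) := by
    exact_mod_cast (Finset.card_le_card h1).trans (Finset.card_union_le _ _)
  have h3 : (H : ℝ) ^ (th e) ≤ (H : ℝ) ^ (th e + ε) := Real.rpow_le_rpow_of_exponent_le hHr (by linarith)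
  calc _ ≤ C * (H : ℝ) ^ (th e + ε) + C₂ * (H : ℝ) ^ (th e) := h2.trans (add_le_add (htot H hH) (hgood H hH))
    _ ≤ C * (H : ℝ) ^ (th e + ε) + C₂ * (H : ℝ) ^ (th e + ε) := by gcongr
    _ = _ := by ring

end T9h23.Pe
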